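import Pool.Agent.Helper39.Area.GolMain
set_option autoImplicit false
open Complex MeasureTheory Metric Set Filter Topology
open scoped Real ENNReal ComplexConjugate NNReal

/-! Identification of the branch; the Goluzin inequality `|log (1 - ζ² β')| ≤ log 1/(1-|ζ|²)`. -/

namespace Pool.Agent.Helper39.Area

theorem eq_zero_of_exp_one {X : Type*} [TopologicalSpace X] {S : Set X} (hS : IsPreconnected S)
    {f : X → ℂ} (hf : ContinuousOn f S) (he : ∀ x ∈ S, Complex.exp (f x) = 1) {x0 : X}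
    (hx0 : x0 ∈ S) (h0 : f x0 = 0) : ∀ x ∈ S, f x = 0 := by
  have him : ContinuousOn (fun x => (f x).im) S := Complex.continuous_im.comp_continuousOn hf
  have hpre := (hS.image _ him).ordConnected
  intro x hx
  obtain ⟨n, hn⟩ := Complex.exp_eq_one_iff.mp (he x hx)
  have him2 : (f x).im = n * (2 * π) := by rw [hn]; simp
  have hn0 : n = 0 := by
    by_contra hne
    -- a value with imaginary part ±π
    have hz : (0:ℝ) ∈ (fun x => (f x).im) '' S := ⟨x0, hx0, by simp [h0]⟩
    have hz2 : (n * (2 * π) : ℝ) ∈ (fun x => (f x).im) '' S := ⟨x, hx, him2⟩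
    have key : ∀ t : ℝ, (t = π ∨ t = -π) → t ∉ (fun x => (f x).im) '' S := by
      rintro t ht ⟨y, hy, hyt⟩
      obtain ⟨m, hm⟩ := Complex.exp_eq_one_iff.mp (he y hy)
      have h1 : (f y).im = m * (2 * π) := by rw [hm]; simp
      simp only at hyt
      rw [hyt] at h1
      have hpi := Real.pi_pos
      rcases ht with rfl | rfl
      · have h2 : (1:ℝ) = m * 2 := by
          have : π * 1 = π * (m * 2) := by linarith
          exact mul_left_cancel₀ hpi.ne' this
        have h3 : (1:ℤ) = m * 2 := by exact_mod_cast h2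
        omega
      · have h2 : (-1:ℝ) = m * 2 := by
          have : π * (-1) = π * (m * 2) := by linarith
          exact mul_left_cancel₀ hpi.ne' this
        have h3 : (-1:ℤ) = m * 2 := by exact_mod_cast h2
        omega
    have hpi := Real.pi_pos
    rcases lt_or_gt_of_ne hne with h | h
    · have h1 : (n:ℝ) ≤ -1 := by exact_mod_cast (Int.le_sub_one_iff.mpr h)
      exact key (-π) (Or.inr rfl) (hpre.out hz2 hz ⟨by nlinarith, by linarith⟩)
    · have h1 : (1:ℝ) ≤ n := by exact_mod_cast h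
      exact key π (Or.inl rfl) (hpre.out hz hz2 ⟨by linarith, by nlinarith⟩)
  rw [hn, hn0]; simp

variable {β : ℂ → ℂ}

theorem dslope_cont (hβ : DifferentiableOn ℂ β (ball 0 1)) :
    ContinuousOn (fun p : ℂ × ℂ => dslope β p.1 p.2) (ball 0 1 ×ˢ ball 0 1) := by
  rintro ⟨a, b⟩ ⟨ha, hb⟩
  simp only at ha hb
  apply ContinuousAt.continuousWithinAt
  have hβa : ContinuousAt β a := (hβ.differentiableAt (isOpen_ball.mem_nhds ha)).continuousAt
  have hβb : ContinuousAt β b := (hβ.differentiableAt (isOpen_ball.mem_nhds hb)).continuousAt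
  by_cases hab : a = b
  · subst hab
    have han : AnalyticAt ℂ β a := hβ.analyticAt (isOpen_ball.mem_nhds ha)
    have hst : HasStrictDerivAt β (deriv β a) a := han.hasStrictDerivAt
    have hdc : ContinuousAt (deriv β) a :=
      ((hβ.deriv isOpen_ball).differentiableAt (isOpen_ball.mem_nhds ha)).continuousAt
    have hdc2 : ContinuousAt (fun p : ℂ × ℂ => deriv β p.1) (a, a) :=
      ContinuousAt.comp (f := Prod.fst) (g := deriv β) (x := ((a, a) : ℂ × ℂ)) hdc continuousAt_fst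
    rw [Metric.continuousAt_iff']
    intro ε hε
    rw [Metric.continuousAt_iff'] at hdc2
    have h1 := (hasStrictDerivAt_iff_hasStrictFDerivAt.mp hst).isLittleO
    have h2 := (Asymptotics.isLittleO_iff.mp h1) (half_pos hε)
    filter_upwards [h2, hdc2 ε hε] with p hp1 hp2
    simp only [dslope_same]
    by_cases hp : p.1 = p.2
    · rw [← hp, dslope_same]
      exact hp2
    · rw [dslope_of_ne _ (Ne.symm hp), slope_def_field, dist_eq_norm]
      have h3 : p.2 - p.1 ≠ 0 := sub_ne_zero.mpr (Ne.symm hp)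
      have h4 : (β p.2 - β p.1) / (p.2 - p.1) - deriv β a =
          (β p.1 - β p.2 - (p.1 - p.2) * deriv β a) / (p.1 - p.2) := by
        have h5 : p.1 - p.2 ≠ 0 := sub_ne_zero.mpr hp
        field_simp
        ring
      rw [h4, norm_div]
      have h5 : 0 < ‖p.1 - p.2‖ := norm_pos_iff.mpr (sub_ne_zero.mpr hp)
      rw [div_lt_iff₀ h5]
      have h6 : ‖β p.1 - β p.2 - (p.1 - p.2) * deriv β a‖ ≤ ε / 2 * ‖p.1 - p.2‖ := by
        simpa [mul_comm] using hp1
      nlinarith
  · have hne : ∀ᶠ p : ℂ × ℂ in 𝓝 (a, b), p.1 ≠ p.2 := by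
      have : IsOpen {p : ℂ × ℂ | p.1 ≠ p.2} := isOpen_ne_fun continuous_fst continuous_snd
      exact this.mem_nhds hab
    have h1 : ContinuousAt (fun p : ℂ × ℂ => (β p.2 - β p.1) / (p.2 - p.1)) (a, b) := by
      have c1 : ContinuousAt (fun p : ℂ × ℂ => β p.1) (a, b) :=
        ContinuousAt.comp (f := Prod.fst) (g := β) (x := ((a, b) : ℂ × ℂ)) hβa continuousAt_fst
      have c2 : ContinuousAt (fun p : ℂ × ℂ => β p.2) (a, b) :=
        ContinuousAt.comp (f := Prod.snd) (g := β) (x := ((a, b) : ℂ × ℂ)) hβb continuousAt_snd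
      exact (c2.sub c1).div (continuousAt_snd.sub continuousAt_fst) (sub_ne_zero.mpr (Ne.symm hab))
    apply h1.congr
    filter_upwards [hne] with p hp
    rw [dslope_of_ne _ (Ne.symm hp), slope_def_field]

theorem goluzin (h : Ext β) {H : ℂ → ℂ} (hH : ContinuousOn H (ball 0 1)) (hH0 : H 0 = 0)
    (hexp : ∀ ζ ∈ ball (0:ℂ) 1, Complex.exp (H ζ) = 1 - ζ ^ 2 * deriv β ζ) {a : ℂ}
    (ha : a ∈ ball (0:ℂ) 1) : ‖H a‖ ≤ - Real.log (1 - ‖a‖ ^ 2) := by
  set U : Set (ℂ × ℂ) := ball 0 1 ×ˢ ball 0 1 with hU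
  have hUo : IsOpen U := isOpen_ball.prod isOpen_ball
  have hUconv : Convex ℝ U := (convex_ball _ _).prod (convex_ball _ _)
  have h00 : ((0:ℂ), (0:ℂ)) ∈ U := ⟨mem_ball_self one_pos, mem_ball_self one_pos⟩
  have hUs : IsSimplyConnected U := by
    have hc : ContractibleSpace U := hUconv.contractibleSpace ⟨_, h00⟩
    show SimplyConnectedSpace U
    infer_instance
  have hqc : ContinuousOn (fun p : ℂ × ℂ => qq β p.1 p.2) U := by
    unfold qq
    apply ContinuousOn.sub continuousOn_const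
    apply ContinuousOn.mul (by fun_prop)
    exact dslope_cont h.diff
  have hq0 : 0 ∉ (fun p : ℂ × ℂ => qq β p.1 p.2) '' U := by
    rintro ⟨p, ⟨hp1, hp2⟩, hp⟩
    exact qq_ne h hp1 hp2 hp
  obtain ⟨Φ, hΦc, hΦ⟩ := Complex.exists_continuousOn_eqOn_exp_comp hUs hUo hqc hq0
  have hΦe : ∀ b ∈ ball (0:ℂ) 1, ∀ ζ ∈ ball (0:ℂ) 1, Complex.exp (Φ (b, ζ)) = qq β b ζ :=
    fun b hb ζ hζ => hΦ (show (b, ζ) ∈ U from ⟨hb, hζ⟩)
  have h0b : (0:ℂ) ∈ ball (0:ℂ) 1 := mem_ball_self one_pos
  -- the diagonal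
  have hTc : ContinuousOn (fun b : ℂ => Φ (b, b) - Φ (b, 0)) (ball 0 1) := by
    apply ContinuousOn.sub
    · exact hΦc.comp (by fun_prop) (fun b hb => ⟨hb, hb⟩)
    · exact hΦc.comp (by fun_prop) (fun b hb => ⟨hb, h0b⟩)
  have hTe : ∀ b ∈ ball (0:ℂ) 1, Complex.exp (Φ (b, b) - Φ (b, 0)) = 1 - b ^ 2 * deriv β b := by
    intro b hb
    rw [Complex.exp_sub, hΦe b hb b hb, hΦe b hb 0 h0b]
    simp only [qq, mul_zero, zero_mul, sub_zero, div_one, dslope_same]
    ring
  have hTHc : ContinuousOn (fun b : ℂ => (Φ (b, b) - Φ (b, 0)) - H b) (ball 0 1) := hTc.sub hH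
  have hTH : ∀ b ∈ ball (0:ℂ) 1, (Φ (b, b) - Φ (b, 0)) - H b = 0 := by
    apply eq_zero_of_exp_one (convex_ball (0:ℂ) 1).isPreconnected hTHc _ h0b
    · simp [hH0]
    · intro b hb
      rw [Complex.exp_sub, hTe b hb, hexp b hb, div_self]
      exact h.ne b hb
  -- the logarithm for fixed `a`
  have hqd := qq_diff h.diff ha
  have hQd : DifferentiableOn ℂ (fun ζ => deriv (qq β a) ζ / qq β a ζ) (ball 0 1) :=
    (hqd.deriv isOpen_ball).div hqd (fun ζ hζ => qq_ne h ha hζ)
  obtain ⟨F, hF0, hF⟩ := hQd.isExactOn_ball.with_val_at 0 0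
  have hFe : ∀ ζ ∈ ball (0:ℂ) 1, Complex.exp (F ζ) = qq β a ζ := by
    -- `exp F / q` has zero derivative
    have hderiv : ∀ ζ ∈ ball (0:ℂ) 1, HasDerivAt (fun ζ => Complex.exp (-F ζ) * qq β a ζ) 0 ζ := by
      intro ζ hζ
      have h1 := ((hF ζ hζ).neg.cexp).mul ((hqd.differentiableAt (isOpen_ball.mem_nhds hζ)).hasDerivAt)
      have h2 := qq_ne h ha hζ
      have e : (0:ℂ) = Complex.exp (-F ζ) * -(deriv (qq β a) ζ / qq β a ζ) * qq β a ζ +
          Complex.exp (-F ζ) * deriv (qq β a) ζ := by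
        field_simp
        ring
      rw [e]
      exact h1
    intro ζ hζ
    have h1 : Complex.exp (-F ζ) * qq β a ζ = Complex.exp (-F 0) * qq β a 0 := by
      apply (convex_ball (0:ℂ) 1).is_const_of_fderivWithin_eq_zero (𝕜 := ℂ)
        (f := fun ζ => Complex.exp (-F ζ) * qq β a ζ) _ _ hζ h0b
      · intro ω hω
        exact (hderiv ω hω).differentiableAt.differentiableWithinAt
      · intro ω hω
        have h3 := (hderiv ω hω).hasFDerivAt.hasFDerivWithinAt (s := ball (0:ℂ) 1)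
        rw [h3.fderivWithin (isOpen_ball.uniqueDiffWithinAt hω)]
        ext
        simp
    rw [hF0, neg_zero, Complex.exp_zero, one_mul] at h1
    have h2 : qq β a 0 = 1 := by simp [qq]
    rw [h2, Complex.exp_neg] at h1
    have h3 := Complex.exp_ne_zero (F ζ)
    field_simp at h1
    exact h1.symm
  have hFc : ContinuousOn F (ball 0 1) := fun ζ hζ => (hF ζ hζ).continuousAt.continuousWithinAt
  have hFΦ : ∀ ζ ∈ ball (0:ℂ) 1, (Φ (a, ζ) - Φ (a, 0)) - F ζ = 0 := by
    apply eq_zero_of_exp_one (convex_ball (0:ℂ) 1).isPreconnected _ _ h0b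
    · simp [hF0]
    · apply ContinuousOn.sub _ hFc
      apply ContinuousOn.sub _ continuousOn_const
      exact hΦc.comp (by fun_prop) (fun ζ hζ => ⟨ha, hζ⟩)
    · intro ζ hζ
      rw [Complex.exp_sub, Complex.exp_sub, hΦe a ha ζ hζ, hΦe a ha 0 h0b, hFe ζ hζ]
      have h2 : qq β a 0 = 1 := by simp [qq]
      rw [h2, div_one, div_self (qq_ne h ha hζ)]
  have h1 := hTH a ha
  have h2 := hFΦ a ha
  have h3 : H a = F a := by linear_combination h2 - h1
  rw [h3]
  exact log_bound h ha hF hF0 hFe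

end Pool.Agent.Helper39.Area
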