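import Pool.Agent.Helper39.Area.Branch
set_option autoImplicit false
open Complex MeasureTheory Metric Set Filter Topology
open scoped Real ENNReal ComplexConjugate NNReal

/-! Transfer from the exterior of the disc to the disc. -/

namespace Pool.Agent.Helper39.Area

noncomputable def toDisc (l : ℂ) (f : ℂ → ℂ) (ζ : ℂ) : ℂ := if ζ = 0 then l else f ζ⁻¹

theorem inv_mem {ζ : ℂ} (hζ : ζ ∈ ball (0:ℂ) 1) (h0 : ζ ≠ 0) : 1 < ‖ζ⁻¹‖ := by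
  rw [mem_ball, dist_zero_right] at hζ
  rw [norm_inv]
  exact (one_lt_inv₀ (norm_pos_iff.mpr h0)).mpr hζ

theorem isOpen_ext : IsOpen {z : ℂ | 1 < ‖z‖} := isOpen_lt continuous_const continuous_norm

theorem toDisc_diff {f : ℂ → ℂ} {l : ℂ} (hf : DifferentiableOn ℂ f {z : ℂ | 1 < ‖z‖})
    (hl : Tendsto f (Bornology.cobounded ℂ) (𝓝 l)) :
    DifferentiableOn ℂ (toDisc l f) (ball 0 1) := by
  have hb : ball (0:ℂ) 1 ∈ 𝓝 (0:ℂ) := ball_mem_nhds 0 one_pos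
  rw [← differentiableOn_compl_singleton_and_continuousAt_iff hb]
  constructor
  · rintro ζ ⟨hζ, h0⟩
    have h0' : ζ ≠ 0 := h0
    have h1 : DifferentiableAt ℂ (fun ζ : ℂ => f ζ⁻¹) ζ := by
      have h2 := hf.differentiableAt (isOpen_ext.mem_nhds (inv_mem hζ h0'))
      exact h2.comp ζ (differentiableAt_inv h0')
    have h2 : toDisc l f =ᶠ[𝓝 ζ] fun ζ : ℂ => f ζ⁻¹ := by
      filter_upwards [isOpen_ne.mem_nhds h0'] with ω hω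
      simp only [toDisc]
      rw [if_neg hω]
    exact (h1.congr_of_eventuallyEq h2).differentiableWithinAt
  · rw [continuousAt_iff_punctured_nhds]
    have h1 : Tendsto (fun ζ : ℂ => f ζ⁻¹) (𝓝[≠] 0) (𝓝 l) := hl.comp tendsto_inv₀_nhdsNE_zero
    have h2 : toDisc l f 0 = l := by simp [toDisc]
    rw [h2]
    apply h1.congr'
    filter_upwards [self_mem_nhdsWithin] with ω hω
    have hω' : ω ≠ 0 := hω
    simp only [toDisc]
    rw [if_neg hω']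

theorem ext_data {ψ h : ℂ → ℂ} {b : ℂ}
    (hψ : DifferentiableOn ℂ ψ {z : ℂ | 1 < ‖z‖})
    (hinj : InjOn ψ {z : ℂ | 1 < ‖z‖})
    (hb : Tendsto (fun z => ψ z - z) (Bornology.cobounded ℂ) (𝓝 b))
    (hexp : ∀ z : ℂ, 1 < ‖z‖ → Complex.exp (h z) = deriv ψ z) :
    Ext (toDisc b (fun z => ψ z - z)) ∧ ∀ ζ ∈ ball (0:ℂ) 1,
      Complex.exp (toDisc 0 h ζ) = 1 - ζ ^ 2 * deriv (toDisc b (fun z => ψ z - z)) ζ := by
  set β : ℂ → ℂ := toDisc b (fun z => ψ z - z) with hβ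
  have hdiff : DifferentiableOn ℂ β (ball 0 1) := toDisc_diff (hψ.sub differentiableOn_id) hb
  have hβ' : ∀ ζ : ℂ, ζ ≠ 0 → β ζ = ψ ζ⁻¹ - ζ⁻¹ := by
    intro ζ hζ
    simp only [hβ, toDisc]
    rw [if_neg hζ]
  have hE : ∀ ζ ∈ ball (0:ℂ) 1, Complex.exp (toDisc 0 h ζ) = 1 - ζ ^ 2 * deriv β ζ := by
    intro ζ hζ
    by_cases h0 : ζ = 0
    · subst h0; simp [toDisc]
    · have h1 := inv_mem hζ h0
      have h2 : toDisc 0 h ζ = h ζ⁻¹ := by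
        simp only [toDisc]; rw [if_neg h0]
      rw [h2, hexp _ h1]
      have h3 := (hψ.differentiableAt (isOpen_ext.mem_nhds h1)).hasDerivAt
      have h4 : HasDerivAt (fun ζ : ℂ => ψ ζ⁻¹) (deriv ψ ζ⁻¹ * -(ζ ^ 2)⁻¹) ζ :=
        h3.comp ζ (hasDerivAt_inv h0)
      have h5 : HasDerivAt (fun ζ : ℂ => ψ ζ⁻¹ - ζ⁻¹) (deriv ψ ζ⁻¹ * -(ζ ^ 2)⁻¹ - -(ζ ^ 2)⁻¹) ζ :=
        h4.sub (hasDerivAt_inv h0)
      have h6 : β =ᶠ[𝓝 ζ] fun ζ : ℂ => ψ ζ⁻¹ - ζ⁻¹ := by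
        filter_upwards [isOpen_ne.mem_nhds h0] with ω hω
        exact hβ' ω hω
      rw [(h5.congr_of_eventuallyEq h6).deriv]
      field_simp
      ring
  refine ⟨⟨hdiff, ?_, ?_⟩, hE⟩
  · intro ζ ω hζ hω hζ0 hω0 heq
    rw [hβ' ζ hζ0, hβ' ω hω0] at heq
    have h1 : ψ ζ⁻¹ = ψ ω⁻¹ := by linear_combination heq
    exact inv_injective (hinj (inv_mem hζ hζ0) (inv_mem hω hω0) h1)
  · intro ζ hζ h'
    rw [← hE ζ hζ] at h'
    exact Complex.exp_ne_zero _ h'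

/-- Goluzin's inequality, in the coordinate `ζ = 1/z`. -/
theorem goluzin_disc {ψ h : ℂ → ℂ}
    (hψ : DifferentiableOn ℂ ψ {z : ℂ | 1 < ‖z‖})
    (hinj : InjOn ψ {z : ℂ | 1 < ‖z‖})
    (hb : ∃ b : ℂ, Tendsto (fun z => ψ z - z) (Bornology.cobounded ℂ) (𝓝 b))
    (hh : DifferentiableOn ℂ h {z : ℂ | 1 < ‖z‖})
    (hexp : ∀ z : ℂ, 1 < ‖z‖ → Complex.exp (h z) = deriv ψ z)
    (hh0 : Tendsto h (Bornology.cobounded ℂ) (𝓝 0)) :
    DifferentiableOn ℂ (toDisc 0 h) (ball 0 1) ∧ ∀ ζ ∈ ball (0:ℂ) 1,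
      ‖toDisc 0 h ζ‖ ≤ Real.log (1 / (1 - ‖ζ‖ ^ 2)) := by
  obtain ⟨b, hb⟩ := hb
  obtain ⟨h1, h2⟩ := ext_data hψ hinj hb hexp
  have h3 : DifferentiableOn ℂ (toDisc 0 h) (ball 0 1) := toDisc_diff hh hh0
  refine ⟨h3, fun ζ hζ => ?_⟩
  have h4 := goluzin h1 h3.continuousOn (by simp [toDisc]) h2 hζ
  rwa [one_div, Real.log_inv]

/-- Goluzin's inequality. -/
theorem goluzin_ext {ψ h : ℂ → ℂ}
    (hψ : DifferentiableOn ℂ ψ {z : ℂ | 1 < ‖z‖})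
    (hinj : InjOn ψ {z : ℂ | 1 < ‖z‖})
    (hb : ∃ b : ℂ, Tendsto (fun z => ψ z - z) (Bornology.cobounded ℂ) (𝓝 b))
    (hh : DifferentiableOn ℂ h {z : ℂ | 1 < ‖z‖})
    (hexp : ∀ z : ℂ, 1 < ‖z‖ → Complex.exp (h z) = deriv ψ z)
    (hh0 : Tendsto h (Bornology.cobounded ℂ) (𝓝 0)) {z : ℂ} (hz : 1 < ‖z‖) :
    ‖h z‖ ≤ Real.log (‖z‖ ^ 2 / (‖z‖ ^ 2 - 1)) := by
  have hz0 : z ≠ 0 := by
    rintro rfl
    simp at hz
    linarith
  have hmem : z⁻¹ ∈ ball (0:ℂ) 1 := by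
    rw [mem_ball, dist_zero_right, norm_inv]
    exact inv_lt_one_of_one_lt₀ hz
  have h1 := (goluzin_disc hψ hinj hb hh hexp hh0).2 z⁻¹ hmem
  have h2 : toDisc 0 h z⁻¹ = h z := by
    simp only [toDisc]
    rw [if_neg (inv_ne_zero hz0), inv_inv]
  rw [h2] at h1
  have h3 : 1 / (1 - ‖z⁻¹‖ ^ 2) = ‖z‖ ^ 2 / (‖z‖ ^ 2 - 1) := by
    rw [norm_inv]
    have : ‖z‖ ≠ 0 := norm_ne_zero_iff.mpr hz0
    have h4 : ‖z‖ ^ 2 - 1 ≠ 0 := by nlinarith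
    field_simp
  rwa [h3] at h1

/-- the circle integral in both coordinates -/
theorem integral_transfer (h : ℂ → ℂ) (a R : ℝ) (hR : 1 < R) :
    (∫ θ in (0:ℝ)..(2 * π),
        Real.exp (a * ‖h ((R : ℂ) * Complex.exp ((θ : ℂ) * I))‖ ^ 2
          / Real.log (R ^ 2 / (R ^ 2 - 1)))) =
      ∫ θ in (0:ℝ)..(2 * π),
        Real.exp (a * ‖toDisc 0 h (((R⁻¹ : ℝ) : ℂ) * Complex.exp ((θ : ℂ) * I))‖ ^ 2
          / Real.log (1 / (1 - (R⁻¹) ^ 2))) := by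
  have hR0 : R ≠ 0 := by linarith
  have hL : Real.log (R ^ 2 / (R ^ 2 - 1)) = Real.log (1 / (1 - (R⁻¹) ^ 2)) := by
    congr 1
    have h4 : R ^ 2 - 1 ≠ 0 := by nlinarith
    field_simp
  set k : ℝ → ℝ := fun θ => Real.exp (a * ‖toDisc 0 h (((R⁻¹ : ℝ) : ℂ) * Complex.exp ((θ : ℂ) * I))‖ ^ 2
          / Real.log (1 / (1 - (R⁻¹) ^ 2))) with hk
  have h1 : ∀ θ : ℝ, Real.exp (a * ‖h ((R : ℂ) * Complex.exp ((θ : ℂ) * I))‖ ^ 2
          / Real.log (R ^ 2 / (R ^ 2 - 1))) = k (-θ) := by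
    intro θ
    simp only [hk]
    rw [hL]
    have hne : ((R⁻¹ : ℝ) : ℂ) * Complex.exp (((-θ : ℝ) : ℂ) * I) ≠ 0 := by
      apply mul_ne_zero _ (Complex.exp_ne_zero _)
      exact_mod_cast inv_ne_zero hR0
    have h2 : (((R⁻¹ : ℝ) : ℂ) * Complex.exp (((-θ : ℝ) : ℂ) * I))⁻¹ =
        (R : ℂ) * Complex.exp ((θ : ℂ) * I) := by
      rw [mul_inv, ← Complex.exp_neg]
      push_cast
      rw [inv_inv]
      congr 2
      ring
    simp only [toDisc]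
    rw [if_neg hne, h2]
  simp_rw [h1]
  rw [intervalIntegral.integral_comp_neg (fun θ => k θ)]
  have hper : Function.Periodic k (2 * π) := by
    intro θ
    simp only [hk]
    have : Complex.exp (((θ + 2 * π : ℝ) : ℂ) * I) = Complex.exp ((θ : ℂ) * I) := by
      push_cast
      rw [add_mul, Complex.exp_add, Complex.exp_two_pi_mul_I, mul_one]
    rw [this]
  have h2 := hper.intervalIntegral_add_eq (-(2 * π)) 0
  simp only [neg_add_cancel, zero_add] at h2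
  rw [neg_zero]
  exact h2

end Pool.Agent.Helper39.Area
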