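import Pool.Agent.Helper39.Area.Wind
set_option autoImplicit false
open Complex MeasureTheory Metric Set Polynomial
open scoped Real ENNReal ComplexConjugate

/-! The area inequality for a polynomial of the exterior map. -/

namespace Pool.Agent.Helper39.Area

variable {β : ℂ → ℂ}

theorem integrable_kernel_poly (p : ℂ[X]) (M : ℝ) (v : ℂ) :
    IntegrableOn (fun u : ℂ => conj (p.eval u) / (v - u)) (ball (0:ℂ) M) := by
  induction p using Polynomial.induction_on' with
  | add p q hp hq =>
    have : (fun u : ℂ => conj ((p + q).eval u) / (v - u)) =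
        fun u => conj (p.eval u) / (v - u) + conj (q.eval u) / (v - u) := by
      funext u; rw [eval_add, map_add, add_div]
    rw [this]
    exact hp.add hq
  | monomial n a =>
    have : (fun u : ℂ => conj ((monomial n a).eval u) / (v - u)) =
        fun u => conj a * (conj u ^ n / (v - u)) := by
      funext u; rw [eval_monomial, map_mul, map_pow, mul_div_assoc]
    rw [this]
    exact (integrable_kernel n M v).const_mul _

theorem kernel_poly (p : ℂ[X]) (M : ℝ) (v : ℂ) (hv : ‖v‖ < M) :
    ∫ u in ball (0:ℂ) M, conj ((derivative p).eval u) / (v - u) =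
      π * (conj (p.eval v) - conj (p.eval 0)) := by
  induction p using Polynomial.induction_on' with
  | add p q hp hq =>
    have : (fun u : ℂ => conj ((derivative (p + q)).eval u) / (v - u)) =
        fun u => conj ((derivative p).eval u) / (v - u) + conj ((derivative q).eval u) / (v - u) := by
      funext u; rw [derivative_add, eval_add, map_add, add_div]
    rw [this, integral_add (integrable_kernel_poly _ M v) (integrable_kernel_poly _ M v), hp, hq]
    simp only [eval_add, map_add]
    ring
  | monomial n a =>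
    cases n with
    | zero => simp
    | succ n =>
      have : (fun u : ℂ => conj ((derivative (monomial (n + 1) a)).eval u) / (v - u)) =
          fun u => conj a * (n + 1) * (conj u ^ n / (v - u)) := by
        funext u
        rw [derivative_monomial, eval_monomial]
        simp only [Nat.add_sub_cancel, map_mul, map_pow, Complex.conj_natCast]
        push_cast
        ring
      rw [this, integral_const_mul, kernel n M v hv]
      have hn : ((n : ℂ) + 1) ≠ 0 := by exact_mod_cast Nat.succ_ne_zero n
      simp only [eval_monomial, map_mul, map_pow]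
      rw [map_zero, zero_pow (Nat.succ_ne_zero n)]
      field_simp
      ring

theorem cont_phi (h : DifferentiableOn ℂ β (ball 0 1)) {ρ : ℝ} (hρ : 0 < ρ) (hρ1 : ρ < 1) :
    ContinuousOn (phi β) (sphere 0 ρ) := fun ζ hζ =>
  (hasDerivAt_phi h (mem_ball_of_sphere hρ1 (sphere_subset_closedBall hζ))
    (sphere_ne hρ hζ)).continuousAt.continuousWithinAt

theorem cont_dphi (h : DifferentiableOn ℂ β (ball 0 1)) {ρ : ℝ} (hρ : 0 < ρ) (hρ1 : ρ < 1) :
    ContinuousOn (dphi β) (sphere 0 ρ) := by
  apply ContinuousOn.add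
  · apply ContinuousOn.neg
    apply ContinuousOn.inv₀ (by fun_prop)
    intro ζ hζ
    exact pow_ne_zero _ (sphere_ne hρ hζ)
  · exact (h.deriv isOpen_ball).continuousOn.mono
      (fun ζ hζ => mem_ball_of_sphere hρ1 (sphere_subset_closedBall hζ))

theorem circleMap_mem {ρ : ℝ} (hρ : 0 < ρ) (θ : ℝ) : circleMap 0 ρ θ ∈ sphere (0:ℂ) ρ :=
  circleMap_mem_sphere 0 hρ.le θ

/-- the inner contour integral -/
theorem inner_int (h : DifferentiableOn ℂ β (ball 0 1)) {ρ : ℝ} (hρ : 0 < ρ) (hρ1 : ρ < 1)
    (P : ℂ[X]) {u : ℂ} (hu : u ∉ phi β '' sphere 0 ρ) :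
    (∮ ζ in C(0, ρ), P.eval (phi β ζ) * dphi β ζ / (phi β ζ - u)) =
      P.eval u * ∮ ζ in C(0, ρ), dphi β ζ / (phi β ζ - u) := by
  have hne : ∀ ζ ∈ sphere (0:ℂ) ρ, phi β ζ - u ≠ 0 := by
    intro ζ hζ h'
    exact hu ⟨ζ, hζ, sub_eq_zero.mp h'⟩
  have hc1 : CircleIntegrable (fun ζ => P.eval u * (dphi β ζ / (phi β ζ - u))) 0 ρ := by
    apply ContinuousOn.circleIntegrable hρ.le
    exact continuousOn_const.mul ((cont_dphi h hρ hρ1).div
      ((cont_phi h hρ hρ1).sub continuousOn_const) hne)
  have hc2 : CircleIntegrable (fun ζ => (P /ₘ (X - C u)).eval (phi β ζ) * dphi β ζ) 0 ρ := by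
    apply ContinuousOn.circleIntegrable hρ.le
    exact ((P /ₘ (X - C u)).continuous.comp_continuousOn (cont_phi h hρ hρ1)).mul
      (cont_dphi h hρ hρ1)
  have h1 : (∮ ζ in C(0, ρ), P.eval (phi β ζ) * dphi β ζ / (phi β ζ - u)) =
      ∮ ζ in C(0, ρ), (P.eval u * (dphi β ζ / (phi β ζ - u)) +
        (P /ₘ (X - C u)).eval (phi β ζ) * dphi β ζ) := by
    apply circleIntegral.integral_congr hρ.le
    intro ζ hζ
    have h2 : P.eval (phi β ζ) = P.eval u + (phi β ζ - u) * (P /ₘ (X - C u)).eval (phi β ζ) := by
      have h3 := modByMonic_add_div P (X - C u)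
      have h4 := congrArg (eval (phi β ζ)) h3
      rw [modByMonic_X_sub_C_eq_C_eval] at h4
      simpa using h4.symm
    simp only
    rw [h2]
    have := hne ζ hζ
    field_simp
  rw [h1, circleIntegral.integral_add hc1 hc2, exact h hρ hρ1, add_zero,
    circleIntegral.integral_const_mul]

/-- the area inequality: `∮ conj P dP` is a nonpositive multiple of `2 i`. -/
theorem area_ineq (h : Ext β) {ρ : ℝ} (hρ : 0 < ρ) (hρ1 : ρ < 1) (p : ℂ[X]) :
    ∃ c : ℝ, 0 ≤ c ∧ (∮ ζ in C(0, ρ), conj (p.eval (phi β ζ)) *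
      ((derivative p).eval (phi β ζ) * dphi β ζ)) = -(2 * I) * c := by
  have hphic := cont_phi h.diff hρ hρ1
  have hdc := cont_dphi h.diff hρ hρ1
  -- the radius
  obtain ⟨M, hM⟩ : ∃ M : ℝ, ∀ ζ ∈ sphere (0:ℂ) ρ, ‖phi β ζ‖ < M := by
    obtain ⟨M, hM⟩ := (isCompact_sphere (0:ℂ) ρ).exists_bound_of_continuousOn hphic
    exact ⟨M + 1, fun ζ hζ => lt_of_le_of_lt (hM ζ hζ) (lt_add_one M)⟩
  have hMpos : 0 < M := lt_of_le_of_lt (norm_nonneg _) (hM _ (circleMap_mem hρ 0))
  set D : ℂ → ℂ := fun ζ => (derivative p).eval (phi β ζ) * dphi β ζ with hD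
  have hDc : ContinuousOn D (sphere 0 ρ) :=
    ((derivative p).continuous.comp_continuousOn hphic).mul hdc
  -- Step 1: rewrite with the kernel
  have e1 : (∮ ζ in C(0, ρ), conj (p.eval (phi β ζ)) * D ζ) =
      ∮ ζ in C(0, ρ), ((π:ℂ)⁻¹ * (D ζ * ∫ u in ball (0:ℂ) M,
        conj ((derivative p).eval u) / (phi β ζ - u)) + conj (p.eval 0) * D ζ) := by
    apply circleIntegral.integral_congr hρ.le
    intro ζ hζ
    simp only
    rw [kernel_poly p M _ (hM ζ hζ)]
    have : (π:ℂ) ≠ 0 := by exact_mod_cast Real.pi_ne_zero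
    field_simp
    ring
  have hpc : ContinuousOn (fun ζ => conj (p.eval (phi β ζ))) (sphere 0 ρ) :=
    Complex.continuous_conj.comp_continuousOn (p.continuous.comp_continuousOn hphic)
  have hci2 : CircleIntegrable (fun ζ => conj (p.eval 0) * D ζ) 0 ρ :=
    (continuousOn_const.mul hDc).circleIntegrable hρ.le
  have hci1 : CircleIntegrable (fun ζ => (π:ℂ)⁻¹ * (D ζ * ∫ u in ball (0:ℂ) M,
        conj ((derivative p).eval u) / (phi β ζ - u))) 0 ρ := by
    apply ContinuousOn.circleIntegrable hρ.le
    have hcc : ContinuousOn (fun ζ => conj (p.eval (phi β ζ)) * D ζ - conj (p.eval 0) * D ζ)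
        (sphere 0 ρ) := (hpc.mul hDc).sub (continuousOn_const.mul hDc)
    apply hcc.congr
    intro ζ hζ
    simp only
    rw [kernel_poly p M _ (hM ζ hζ)]
    have : (π:ℂ) ≠ 0 := by exact_mod_cast Real.pi_ne_zero
    field_simp
  have e2 : (∮ ζ in C(0, ρ), conj (p.eval 0) * D ζ) = 0 := by
    rw [circleIntegral.integral_const_mul, hD, exact h.diff hρ hρ1, mul_zero]
  rw [e1, circleIntegral.integral_add hci1 hci2, e2, add_zero, circleIntegral.integral_const_mul]
  -- Step 2: Fubini
  have e3 : (∮ ζ in C(0, ρ), D ζ * ∫ u in ball (0:ℂ) M,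
        conj ((derivative p).eval u) / (phi β ζ - u)) =
      ∫ u in ball (0:ℂ) M, conj ((derivative p).eval u) *
        ∮ ζ in C(0, ρ), (derivative p).eval (phi β ζ) * dphi β ζ / (phi β ζ - u) := by
    simp only [circleIntegral]
    have e4 : (∫ θ in (0:ℝ)..2 * π, deriv (circleMap 0 ρ) θ • (D (circleMap 0 ρ θ) *
        ∫ u in ball (0:ℂ) M, conj ((derivative p).eval u) / (phi β (circleMap 0 ρ θ) - u))) =
        ∫ θ in (0:ℝ)..2 * π, ∫ u in ball (0:ℂ) M, deriv (circleMap 0 ρ) θ * (D (circleMap 0 ρ θ) *
          (conj ((derivative p).eval u) / (phi β (circleMap 0 ρ θ) - u))) := by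
      congr 1
      funext θ
      rw [smul_eq_mul, ← integral_const_mul, ← integral_const_mul]
    have e5 : (∫ u in ball (0:ℂ) M, conj ((derivative p).eval u) *
        ∫ θ in (0:ℝ)..2 * π, deriv (circleMap 0 ρ) θ •
          ((derivative p).eval (phi β (circleMap 0 ρ θ)) * dphi β (circleMap 0 ρ θ) /
            (phi β (circleMap 0 ρ θ) - u))) =
        ∫ u in ball (0:ℂ) M, ∫ θ in (0:ℝ)..2 * π, deriv (circleMap 0 ρ) θ * (D (circleMap 0 ρ θ) *
          (conj ((derivative p).eval u) / (phi β (circleMap 0 ρ θ) - u))) := by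
      congr 1
      funext u
      rw [← intervalIntegral.integral_const_mul]
      congr 1
      funext θ
      simp only [hD, smul_eq_mul]
      ring
    rw [e4, e5]
    simp only [intervalIntegral.integral_of_le Real.two_pi_pos.le]
    apply integral_integral_swap
    -- integrability
    have hcθ : Continuous (fun θ : ℝ => circleMap 0 ρ θ) := continuous_circleMap 0 ρ
    have hc1 : Continuous (fun θ : ℝ => phi β (circleMap 0 ρ θ)) :=
      hphic.comp_continuous hcθ (fun θ => circleMap_mem hρ θ)
    have hc2 : Continuous (fun θ : ℝ => deriv (circleMap 0 ρ) θ * D (circleMap 0 ρ θ)) := by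
      have : deriv (circleMap 0 ρ) = fun θ => circleMap 0 ρ θ * I := by
        funext θ; rw [deriv_circleMap]
      apply Continuous.mul
      · rw [this]; fun_prop
      · exact hDc.comp_continuous hcθ (fun θ => circleMap_mem hρ θ)
    have hmeas : Measurable (fun z : ℝ × ℂ => deriv (circleMap 0 ρ) z.1 * (D (circleMap 0 ρ z.1) *
          (conj ((derivative p).eval z.2) / (phi β (circleMap 0 ρ z.1) - z.2)))) := by
      have m1 : Measurable (fun z : ℝ × ℂ => deriv (circleMap 0 ρ) z.1 * D (circleMap 0 ρ z.1)) :=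
        hc2.measurable.comp measurable_fst
      have m2 : Measurable (fun z : ℝ × ℂ => conj ((derivative p).eval z.2)) :=
        (Complex.continuous_conj.comp (derivative p).continuous).measurable.comp measurable_snd
      have m3 : Measurable (fun z : ℝ × ℂ => phi β (circleMap 0 ρ z.1) - z.2) :=
        (hc1.measurable.comp measurable_fst).sub measurable_snd
      have e : (fun z : ℝ × ℂ => deriv (circleMap 0 ρ) z.1 * (D (circleMap 0 ρ z.1) *
          (conj ((derivative p).eval z.2) / (phi β (circleMap 0 ρ z.1) - z.2)))) =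
          fun z : ℝ × ℂ => (deriv (circleMap 0 ρ) z.1 * D (circleMap 0 ρ z.1)) *
          (conj ((derivative p).eval z.2) / (phi β (circleMap 0 ρ z.1) - z.2)) := by
        funext z; ring
      rw [e]
      exact m1.mul (m2.div m3)
    show Integrable (fun z : ℝ × ℂ => deriv (circleMap 0 ρ) z.1 * (D (circleMap 0 ρ z.1) *
          (conj ((derivative p).eval z.2) / (phi β (circleMap 0 ρ z.1) - z.2))))
          ((volume.restrict (Ioc 0 (2 * π))).prod (volume.restrict (ball 0 M)))
    refine ⟨hmeas.aestronglyMeasurable, ?_⟩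
    -- bounds
    obtain ⟨B1, hB1⟩ := (isCompact_Icc (a := (0:ℝ)) (b := 2 * π)).exists_bound_of_continuousOn
      hc2.continuousOn
    obtain ⟨B2, hB2⟩ := (isCompact_closedBall (0:ℂ) M).exists_bound_of_continuousOn
      (Complex.continuous_conj.comp (derivative p).continuous).continuousOn
    rw [hasFiniteIntegral_iff_enorm]
    rw [lintegral_prod _ (hmeas.enorm.aemeasurable)]
    calc ∫⁻ θ in Ioc (0:ℝ) (2 * π), ∫⁻ u in ball (0:ℂ) M, ‖deriv (circleMap 0 ρ) θ *
          (D (circleMap 0 ρ θ) *
          (conj ((derivative p).eval u) / (phi β (circleMap 0 ρ θ) - u)))‖ₑ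
        ≤ ∫⁻ θ in Ioc (0:ℝ) (2 * π), ENNReal.ofReal (B1 * B2) * ENNReal.ofReal (2 * π * (M + M)) := by
          apply setLIntegral_mono measurable_const
          intro θ hθ
          have hθ' : θ ∈ Icc (0:ℝ) (2 * π) := Ioc_subset_Icc_self hθ
          calc ∫⁻ u in ball (0:ℂ) M, ‖deriv (circleMap 0 ρ) θ * (D (circleMap 0 ρ θ) *
                (conj ((derivative p).eval u) / (phi β (circleMap 0 ρ θ) - u)))‖ₑ
              ≤ ∫⁻ u in ball (0:ℂ) M, ENNReal.ofReal (B1 * B2) *
                  ENNReal.ofReal (‖phi β (circleMap 0 ρ θ) - u‖⁻¹) := by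
                apply setLIntegral_mono
                · apply Measurable.const_mul
                  exact (by fun_prop : Measurable fun u : ℂ => ‖phi β (circleMap 0 ρ θ) - u‖⁻¹).ennreal_ofReal
                intro u hu
                rw [← ofReal_norm, ← ENNReal.ofReal_mul (mul_nonneg
                  ((norm_nonneg _).trans (hB1 θ hθ')) ((norm_nonneg _).trans (hB2 u (ball_subset_closedBall hu))))]
                apply ENNReal.ofReal_le_ofReal
                have b1 := hB1 θ hθ'
                have b2 := hB2 u (ball_subset_closedBall hu)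
                simp only [Function.comp] at b2
                calc ‖deriv (circleMap 0 ρ) θ * (D (circleMap 0 ρ θ) *
                      (conj ((derivative p).eval u) / (phi β (circleMap 0 ρ θ) - u)))‖
                    = ‖deriv (circleMap 0 ρ) θ * D (circleMap 0 ρ θ)‖ *
                      ‖conj ((derivative p).eval u)‖ * ‖phi β (circleMap 0 ρ θ) - u‖⁻¹ := by
                      rw [← mul_assoc, norm_mul, norm_div, div_eq_mul_inv]
                      ring
                  _ ≤ B1 * B2 * ‖phi β (circleMap 0 ρ θ) - u‖⁻¹ := by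
                      apply mul_le_mul_of_nonneg_right _ (by positivity)
                      exact mul_le_mul b1 b2 (norm_nonneg _) ((norm_nonneg _).trans b1)
            _ = ENNReal.ofReal (B1 * B2) * ∫⁻ u in ball (0:ℂ) M,
                  ENNReal.ofReal (‖phi β (circleMap 0 ρ θ) - u‖⁻¹) := by
                rw [lintegral_const_mul' _ _ ENNReal.ofReal_ne_top]
            _ ≤ ENNReal.ofReal (B1 * B2) * ENNReal.ofReal (2 * π * (M + M)) := by
                gcongr
                refine (lint_inv _ M).trans ?_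
                apply ENNReal.ofReal_le_ofReal
                have := (hM _ (circleMap_mem hρ θ)).le
                have hpi := Real.pi_pos
                nlinarith
      _ < ⊤ := by
          rw [setLIntegral_const]
          apply ENNReal.mul_lt_top
          · exact ENNReal.mul_lt_top ENNReal.ofReal_lt_top ENNReal.ofReal_lt_top
          · rw [Real.volume_Ioc]; exact ENNReal.ofReal_lt_top
  rw [e3]
  -- Step 3: evaluate the inner integral almost everywhere
  have hnull : volume (phi β '' sphere 0 ρ) = 0 := by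
    apply addHaar_image_eq_zero_of_differentiableOn_of_addHaar_eq_zero
    · intro ζ hζ
      have h1 := hasDerivAt_phi h.diff (mem_ball_of_sphere hρ1 (sphere_subset_closedBall hζ))
        (sphere_ne hρ hζ)
      exact (h1.hasFDerivAt.restrictScalars ℝ).differentiableAt.differentiableWithinAt
    · exact Measure.addHaar_sphere volume 0 ρ
  set S : Set ℂ := phi β '' (ball 0 ρ \ {0}) with hS
  have hSo : IsOpen S := by
    -- open mapping
    have ho : ∀ ζ ∈ ball (0:ℂ) ρ \ {0}, S ∈ nhds (phi β ζ) := by
      rintro ζ ⟨hζ, hζ0⟩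
      have hζ0' : ζ ≠ 0 := hζ0
      have hζ1 : ζ ∈ ball (0:ℂ) 1 := mem_ball_of_sphere hρ1 (ball_subset_closedBall hζ)
      have hst : HasStrictDerivAt (phi β) (dphi β ζ) ζ := by
        have h1 : DifferentiableOn ℂ (phi β) (ball 0 1 \ {0}) := by
          rintro ω ⟨hω, hω0⟩
          exact (hasDerivAt_phi h.diff hω hω0).differentiableAt.differentiableWithinAt
        have h2 : AnalyticAt ℂ (phi β) ζ :=
          h1.analyticAt ((isOpen_ball.sdiff isClosed_singleton).mem_nhds ⟨hζ1, hζ0⟩)
        have h3 := h2.hasStrictDerivAt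
        rwa [(hasDerivAt_phi h.diff hζ1 hζ0').deriv] at h3
      have hd0 : dphi β ζ ≠ 0 := by
        have := h.ne ζ hζ1
        intro h'
        apply this
        have : 1 - ζ ^ 2 * deriv β ζ = - ζ ^ 2 * dphi β ζ := by
          unfold dphi
          field_simp
          ring
        rw [this, h', mul_zero]
      have hmap := hst.map_nhds_eq hd0
      rw [← hmap]
      exact Filter.image_mem_map ((isOpen_ball.sdiff isClosed_singleton).mem_nhds ⟨hζ, hζ0⟩)
    rw [isOpen_iff_mem_nhds]
    rintro _ ⟨ζ, hζ, rfl⟩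
    exact ho ζ hζ
  have hae : ∀ᵐ u : ℂ, conj ((derivative p).eval u) *
        (∮ ζ in C(0, ρ), (derivative p).eval (phi β ζ) * dphi β ζ / (phi β ζ - u)) =
      -(2 * π * I) * ((Sᶜ.indicator (fun u => ‖(derivative p).eval u‖ ^ 2) u : ℝ) : ℂ) := by
    have : ∀ᵐ u : ℂ, u ∉ phi β '' sphere 0 ρ := measure_eq_zero_iff_ae_notMem.mp hnull
    filter_upwards [this] with u hu
    rw [inner_int h.diff hρ hρ1 _ hu]
    by_cases huS : u ∈ S
    · rw [indicator_of_notMem (by simpa using huS)]
      obtain ⟨a, ⟨ha, ha0⟩, rfl⟩ := huS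
      rw [wind_in h hρ hρ1 ha ha0]
      simp
    · rw [indicator_of_mem (by simpa using huS)]
      rw [wind_out h.diff hρ hρ1]
      · have h7 : (((‖(derivative p).eval u‖ ^ 2 : ℝ)) : ℂ) =
            (derivative p).eval u * conj ((derivative p).eval u) := by
          rw [Complex.mul_conj, Complex.normSq_eq_norm_sq]
        rw [h7]; ring
      · intro ζ hζ hζ0 h'
        rcases lt_or_eq_of_le (show ‖ζ‖ ≤ ρ by simpa using hζ) with h8 | h8
        · exact huS ⟨ζ, ⟨by simpa using h8, hζ0⟩, h'⟩
        · exact hu ⟨ζ, by simpa using h8, h'⟩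
  rw [setIntegral_congr_ae measurableSet_ball (hae.mono fun u hu _ => hu), integral_const_mul,
    integral_complex_ofReal]
  refine ⟨∫ u in ball (0:ℂ) M, Sᶜ.indicator (fun u => ‖(derivative p).eval u‖ ^ 2) u, ?_, ?_⟩
  · apply integral_nonneg
    intro u
    apply indicator_nonneg
    intro u _
    positivity
  · have : (π:ℂ) ≠ 0 := by exact_mod_cast Real.pi_ne_zero
    field_simp

end Pool.Agent.Helper39.Area
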