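import Pool.Agent.Helper39.Area.LogKernel
import Pool.Agent.Helper39.Area.Ineq
set_option autoImplicit false
open Complex MeasureTheory Metric Set
open scoped Real ENNReal ComplexConjugate

/-! The area inequality for the logarithm of the exterior map. -/

namespace Pool.Agent.Helper39.Area

variable {β : ℂ → ℂ}

/-- the inner contour integral -/
theorem inner_log (h : Ext β) {ρ : ℝ} (hρ : 0 < ρ) (hρ1 : ρ < 1)
    {a : ℂ} (ha : a ∈ ball (0:ℂ) ρ) (ha0 : a ≠ 0) {u : ℂ} (hu0 : u ≠ 0)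
    (hu : phi β a + u ∉ phi β '' sphere 0 ρ) :
    (∮ ζ in C(0, ρ), dphi β ζ / (phi β ζ - phi β a) / (phi β ζ - phi β a - u)) =
      u⁻¹ * ∮ ζ in C(0, ρ), dphi β ζ / (phi β ζ - (phi β a + u)) := by
  have ha1 : a ∈ ball (0:ℂ) 1 := mem_ball_of_sphere hρ1 (ball_subset_closedBall ha)
  have hne : ∀ ζ ∈ sphere (0:ℂ) ρ, phi β ζ - (phi β a + u) ≠ 0 := by
    intro ζ hζ h'
    exact hu ⟨ζ, hζ, sub_eq_zero.mp h'⟩
  have hne2 : ∀ ζ ∈ sphere (0:ℂ) ρ, phi β ζ - phi β a ≠ 0 := by
    intro ζ hζ h'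
    have h2 := h.inj ζ a (mem_ball_of_sphere hρ1 (sphere_subset_closedBall hζ)) ha1
      (sphere_ne hρ hζ) ha0 (sub_eq_zero.mp h')
    subst h2
    simp at ha hζ
    linarith
  have hc1 : CircleIntegrable (fun ζ => dphi β ζ / (phi β ζ - (phi β a + u))) 0 ρ := by
    apply ContinuousOn.circleIntegrable hρ.le
    exact (cont_dphi h.diff hρ hρ1).div
      ((cont_phi h.diff hρ hρ1).sub continuousOn_const) hne
  have hc2 : CircleIntegrable (fun ζ => dphi β ζ / (phi β ζ - phi β a)) 0 ρ := by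
    apply ContinuousOn.circleIntegrable hρ.le
    exact (cont_dphi h.diff hρ hρ1).div
      ((cont_phi h.diff hρ hρ1).sub continuousOn_const) hne2
  have h1 : (∮ ζ in C(0, ρ), dphi β ζ / (phi β ζ - phi β a) / (phi β ζ - phi β a - u)) =
      ∮ ζ in C(0, ρ), u⁻¹ * (dphi β ζ / (phi β ζ - (phi β a + u)) -
        dphi β ζ / (phi β ζ - phi β a)) := by
    apply circleIntegral.integral_congr hρ.le
    intro ζ hζ
    have h3 := hne ζ hζ
    have h4 := hne2 ζ hζ
    have h5 : phi β ζ - phi β a - u ≠ 0 := by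
      intro h'
      apply h3
      rw [← h']; ring
    simp only
    rw [show phi β ζ - (phi β a + u) = phi β ζ - phi β a - u by ring]
    field_simp
    ring
  rw [h1, circleIntegral.integral_const_mul, circleIntegral.integral_sub hc1 hc2,
    wind_in h hρ hρ1 ha ha0, sub_zero]

/-- the area inequality for `log (φ - φ a)` -/
theorem area_log (h : Ext β) {ρ : ℝ} (hρ : 0 < ρ) (hρ1 : ρ < 1)
    {a : ℂ} (ha : a ∈ ball (0:ℂ) ρ) (ha0 : a ≠ 0) :
    ∃ c : ℝ, 0 ≤ c ∧ (∮ ζ in C(0, ρ), ((2 * Real.log ‖phi β ζ - phi β a‖ : ℝ) : ℂ) *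
      (dphi β ζ / (phi β ζ - phi β a))) = -(2 * I) * c := by
  have ha1 : a ∈ ball (0:ℂ) 1 := mem_ball_of_sphere hρ1 (ball_subset_closedBall ha)
  have hphic := cont_phi h.diff hρ hρ1
  have hdc := cont_dphi h.diff hρ hρ1
  set w : ℂ := phi β a with hw
  have hne2 : ∀ ζ ∈ sphere (0:ℂ) ρ, phi β ζ - w ≠ 0 := by
    intro ζ hζ h'
    have h2 := h.inj ζ a (mem_ball_of_sphere hρ1 (sphere_subset_closedBall hζ)) ha1
      (sphere_ne hρ hζ) ha0 (sub_eq_zero.mp h')
    subst h2
    simp at ha hζ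
    linarith
  have hvc : ContinuousOn (fun ζ => phi β ζ - w) (sphere 0 ρ) := hphic.sub continuousOn_const
  -- the radius
  obtain ⟨M, hM⟩ : ∃ M : ℝ, ∀ ζ ∈ sphere (0:ℂ) ρ, ‖phi β ζ - w‖ < M := by
    obtain ⟨M, hM⟩ := (isCompact_sphere (0:ℂ) ρ).exists_bound_of_continuousOn hvc
    exact ⟨M + 1, fun ζ hζ => lt_of_le_of_lt (hM ζ hζ) (lt_add_one M)⟩
  have hMpos : 0 < M := lt_of_le_of_lt (norm_nonneg _) (hM _ (circleMap_mem hρ 0))
  -- the lower bound
  obtain ⟨d, hd0, hd⟩ : ∃ d : ℝ, 0 < d ∧ ∀ ζ ∈ sphere (0:ℂ) ρ, ‖phi β ζ - w‖⁻¹ ≤ d := by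
    have : ContinuousOn (fun ζ => (phi β ζ - w)⁻¹) (sphere 0 ρ) := hvc.inv₀ hne2
    obtain ⟨M, hM⟩ := (isCompact_sphere (0:ℂ) ρ).exists_bound_of_continuousOn this
    refine ⟨|M| + 1, by positivity, fun ζ hζ => ?_⟩
    have := hM ζ hζ
    rw [norm_inv] at this
    linarith [le_abs_self M]
  set D : ℂ → ℂ := fun ζ => dphi β ζ / (phi β ζ - w) with hD
  have hDc : ContinuousOn D (sphere 0 ρ) := hdc.div hvc hne2
  -- Step 1: rewrite with the kernel
  have e1 : (∮ ζ in C(0, ρ), ((2 * Real.log ‖phi β ζ - w‖ : ℝ) : ℂ) * D ζ) =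
      ∮ ζ in C(0, ρ), ((π:ℂ)⁻¹ * (D ζ * ∫ u in ball (0:ℂ) M,
        (conj u)⁻¹ / (phi β ζ - w - u)) + ((2 * Real.log M : ℝ) : ℂ) * D ζ) := by
    apply circleIntegral.integral_congr hρ.le
    intro ζ hζ
    simp only
    rw [logkernel M (hne2 ζ hζ) (hM ζ hζ)]
    have : (π:ℂ) ≠ 0 := by exact_mod_cast Real.pi_ne_zero
    push_cast
    field_simp
    ring
  have hlc : ContinuousOn (fun ζ => ((2 * Real.log ‖phi β ζ - w‖ : ℝ) : ℂ)) (sphere 0 ρ) := by
    apply Complex.continuous_ofReal.comp_continuousOn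
    apply continuousOn_const.mul
    apply ContinuousOn.log hvc.norm
    intro ζ hζ
    exact norm_ne_zero_iff.mpr (hne2 ζ hζ)
  have hci2 : CircleIntegrable (fun ζ => ((2 * Real.log M : ℝ) : ℂ) * D ζ) 0 ρ :=
    (continuousOn_const.mul hDc).circleIntegrable hρ.le
  have hci1 : CircleIntegrable (fun ζ => (π:ℂ)⁻¹ * (D ζ * ∫ u in ball (0:ℂ) M,
        (conj u)⁻¹ / (phi β ζ - w - u))) 0 ρ := by
    apply ContinuousOn.circleIntegrable hρ.le
    have hcc : ContinuousOn (fun ζ => ((2 * Real.log ‖phi β ζ - w‖ : ℝ) : ℂ) * D ζ -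
        ((2 * Real.log M : ℝ) : ℂ) * D ζ) (sphere 0 ρ) :=
      (hlc.mul hDc).sub (continuousOn_const.mul hDc)
    apply hcc.congr
    intro ζ hζ
    simp only
    rw [logkernel M (hne2 ζ hζ) (hM ζ hζ)]
    have : (π:ℂ) ≠ 0 := by exact_mod_cast Real.pi_ne_zero
    push_cast
    field_simp
  have e2 : (∮ ζ in C(0, ρ), ((2 * Real.log M : ℝ) : ℂ) * D ζ) = 0 := by
    rw [circleIntegral.integral_const_mul, hD, wind_in h hρ hρ1 ha ha0, mul_zero]
  rw [e1, circleIntegral.integral_add hci1 hci2, e2, add_zero, circleIntegral.integral_const_mul]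
  -- Step 2: Fubini
  have e3 : (∮ ζ in C(0, ρ), D ζ * ∫ u in ball (0:ℂ) M, (conj u)⁻¹ / (phi β ζ - w - u)) =
      ∫ u in ball (0:ℂ) M, (conj u)⁻¹ *
        ∮ ζ in C(0, ρ), dphi β ζ / (phi β ζ - w) / (phi β ζ - w - u) := by
    simp only [circleIntegral]
    have e4 : (∫ θ in (0:ℝ)..2 * π, deriv (circleMap 0 ρ) θ • (D (circleMap 0 ρ θ) *
        ∫ u in ball (0:ℂ) M, (conj u)⁻¹ / (phi β (circleMap 0 ρ θ) - w - u))) =
        ∫ θ in (0:ℝ)..2 * π, ∫ u in ball (0:ℂ) M, deriv (circleMap 0 ρ) θ * (D (circleMap 0 ρ θ) *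
          ((conj u)⁻¹ / (phi β (circleMap 0 ρ θ) - w - u))) := by
      congr 1
      funext θ
      rw [smul_eq_mul, ← integral_const_mul, ← integral_const_mul]
    have e5 : (∫ u in ball (0:ℂ) M, (conj u)⁻¹ *
        ∫ θ in (0:ℝ)..2 * π, deriv (circleMap 0 ρ) θ •
          (dphi β (circleMap 0 ρ θ) / (phi β (circleMap 0 ρ θ) - w) /
            (phi β (circleMap 0 ρ θ) - w - u))) =
        ∫ u in ball (0:ℂ) M, ∫ θ in (0:ℝ)..2 * π, deriv (circleMap 0 ρ) θ * (D (circleMap 0 ρ θ) *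
          ((conj u)⁻¹ / (phi β (circleMap 0 ρ θ) - w - u))) := by
      congr 1
      funext u
      rw [← intervalIntegral.integral_const_mul]
      congr 1
      funext θ
      simp only [hD, smul_eq_mul]
      ring
    rw [e4, e5]
    simp only [intervalIntegral.integral_of_le Real.two_pi_pos.le]
    apply integral_integral_swap
    -- integrability
    have hcθ : Continuous (fun θ : ℝ => circleMap 0 ρ θ) := continuous_circleMap 0 ρ
    have hc1 : Continuous (fun θ : ℝ => phi β (circleMap 0 ρ θ) - w) :=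
      hvc.comp_continuous hcθ (fun θ => circleMap_mem hρ θ)
    have hc2 : Continuous (fun θ : ℝ => deriv (circleMap 0 ρ) θ * D (circleMap 0 ρ θ)) := by
      have : deriv (circleMap 0 ρ) = fun θ => circleMap 0 ρ θ * I := by
        funext θ; rw [deriv_circleMap]
      apply Continuous.mul
      · rw [this]; fun_prop
      · exact hDc.comp_continuous hcθ (fun θ => circleMap_mem hρ θ)
    have hmeas : Measurable (fun z : ℝ × ℂ => deriv (circleMap 0 ρ) z.1 * (D (circleMap 0 ρ z.1) *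
          ((conj z.2)⁻¹ / (phi β (circleMap 0 ρ z.1) - w - z.2)))) := by
      have m1 : Measurable (fun z : ℝ × ℂ => deriv (circleMap 0 ρ) z.1 * D (circleMap 0 ρ z.1)) :=
        hc2.measurable.comp measurable_fst
      have m2 : Measurable (fun z : ℝ × ℂ => (conj z.2)⁻¹) :=
        (Complex.continuous_conj.measurable.inv).comp measurable_snd
      have m3 : Measurable (fun z : ℝ × ℂ => phi β (circleMap 0 ρ z.1) - w - z.2) :=
        (hc1.measurable.comp measurable_fst).sub measurable_snd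
      have e : (fun z : ℝ × ℂ => deriv (circleMap 0 ρ) z.1 * (D (circleMap 0 ρ z.1) *
          ((conj z.2)⁻¹ / (phi β (circleMap 0 ρ z.1) - w - z.2)))) =
          fun z : ℝ × ℂ => (deriv (circleMap 0 ρ) z.1 * D (circleMap 0 ρ z.1)) *
          ((conj z.2)⁻¹ / (phi β (circleMap 0 ρ z.1) - w - z.2)) := by
        funext z; ring
      rw [e]
      exact m1.mul (m2.div m3)
    show Integrable (fun z : ℝ × ℂ => deriv (circleMap 0 ρ) z.1 * (D (circleMap 0 ρ z.1) *
          ((conj z.2)⁻¹ / (phi β (circleMap 0 ρ z.1) - w - z.2))))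
          ((volume.restrict (Ioc 0 (2 * π))).prod (volume.restrict (ball 0 M)))
    refine ⟨hmeas.aestronglyMeasurable, ?_⟩
    -- bounds
    obtain ⟨B1, hB1⟩ := (isCompact_Icc (a := (0:ℝ)) (b := 2 * π)).exists_bound_of_continuousOn
      hc2.continuousOn
    have hB10 : 0 ≤ B1 := (norm_nonneg _).trans (hB1 0 ⟨le_rfl, Real.two_pi_pos.le⟩)
    rw [hasFiniteIntegral_iff_enorm]
    rw [lintegral_prod _ (hmeas.enorm.aemeasurable)]
    calc ∫⁻ θ in Ioc (0:ℝ) (2 * π), ∫⁻ u in ball (0:ℂ) M, ‖deriv (circleMap 0 ρ) θ *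
          (D (circleMap 0 ρ θ) *
          ((conj u)⁻¹ / (phi β (circleMap 0 ρ θ) - w - u)))‖ₑ
        ≤ ∫⁻ θ in Ioc (0:ℝ) (2 * π), ENNReal.ofReal (B1 * d) *
            (ENNReal.ofReal (2 * π * M) + ENNReal.ofReal (2 * π * (M + M))) := by
          apply setLIntegral_mono measurable_const
          intro θ hθ
          have hθ' : θ ∈ Icc (0:ℝ) (2 * π) := Ioc_subset_Icc_self hθ
          set v : ℂ := phi β (circleMap 0 ρ θ) - w with hv
          have hv0 : v ≠ 0 := hne2 _ (circleMap_mem hρ θ)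
          have hvd : ‖v‖⁻¹ ≤ d := hd _ (circleMap_mem hρ θ)
          have hvM : ‖v‖ < M := hM _ (circleMap_mem hρ θ)
          calc ∫⁻ u in ball (0:ℂ) M, ‖deriv (circleMap 0 ρ) θ * (D (circleMap 0 ρ θ) *
                ((conj u)⁻¹ / (v - u)))‖ₑ
              ≤ ∫⁻ u in ball (0:ℂ) M, ENNReal.ofReal (B1 * d) *
                  (ENNReal.ofReal (‖u‖⁻¹) + ENNReal.ofReal (‖v - u‖⁻¹)) := by
                apply setLIntegral_mono
                · apply Measurable.const_mul
                  exact (by fun_prop : Measurable fun u : ℂ => ‖u‖⁻¹).ennreal_ofReal.add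
                    (by fun_prop : Measurable fun u : ℂ => ‖v - u‖⁻¹).ennreal_ofReal
                intro u hu
                rw [← ofReal_norm, ← ENNReal.ofReal_add (by positivity) (by positivity),
                  ← ENNReal.ofReal_mul (by positivity)]
                apply ENNReal.ofReal_le_ofReal
                have b1 := hB1 θ hθ'
                calc ‖deriv (circleMap 0 ρ) θ * (D (circleMap 0 ρ θ) *
                      ((conj u)⁻¹ / (v - u)))‖
                    = ‖deriv (circleMap 0 ρ) θ * D (circleMap 0 ρ θ)‖ *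
                      (‖u‖⁻¹ * ‖v - u‖⁻¹) := by
                      rw [← mul_assoc, norm_mul, norm_div, norm_inv, RCLike.norm_conj, div_eq_mul_inv]
                  _ ≤ B1 * (‖v‖⁻¹ * (‖u‖⁻¹ + ‖v - u‖⁻¹)) := by
                      apply mul_le_mul b1 (inv_mul_inv_le u v hv0) (by positivity) hB10
                  _ ≤ B1 * (d * (‖u‖⁻¹ + ‖v - u‖⁻¹)) := by gcongr
                  _ = B1 * d * (‖u‖⁻¹ + ‖v - u‖⁻¹) := by ring
            _ = ENNReal.ofReal (B1 * d) * (∫⁻ u in ball (0:ℂ) M, ENNReal.ofReal (‖u‖⁻¹) +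
                  ENNReal.ofReal (‖v - u‖⁻¹)) := by
                rw [lintegral_const_mul' _ _ ENNReal.ofReal_ne_top]
            _ = ENNReal.ofReal (B1 * d) * ((∫⁻ u in ball (0:ℂ) M, ENNReal.ofReal (‖u‖⁻¹)) +
                  ∫⁻ u in ball (0:ℂ) M, ENNReal.ofReal (‖v - u‖⁻¹)) := by
                rw [lintegral_add_left (by fun_prop : Measurable fun u : ℂ => ‖u‖⁻¹).ennreal_ofReal]
            _ ≤ ENNReal.ofReal (B1 * d) *
                (ENNReal.ofReal (2 * π * M) + ENNReal.ofReal (2 * π * (M + M))) := by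
                gcongr
                · exact lint_inv_ball M
                · refine (lint_inv _ M).trans ?_
                  apply ENNReal.ofReal_le_ofReal
                  have hpi := Real.pi_pos
                  nlinarith
      _ < ⊤ := by
          rw [setLIntegral_const]
          apply ENNReal.mul_lt_top
          · apply ENNReal.mul_lt_top ENNReal.ofReal_lt_top
            exact ENNReal.add_lt_top.mpr ⟨ENNReal.ofReal_lt_top, ENNReal.ofReal_lt_top⟩
          · rw [Real.volume_Ioc]; exact ENNReal.ofReal_lt_top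
  rw [e3]
  -- Step 3: evaluate the inner integral almost everywhere
  have hnull : volume (phi β '' sphere 0 ρ) = 0 := by
    apply addHaar_image_eq_zero_of_differentiableOn_of_addHaar_eq_zero
    · intro ζ hζ
      have h1 := hasDerivAt_phi h.diff (mem_ball_of_sphere hρ1 (sphere_subset_closedBall hζ))
        (sphere_ne hρ hζ)
      exact (h1.hasFDerivAt.restrictScalars ℝ).differentiableAt.differentiableWithinAt
    · exact Measure.addHaar_sphere volume 0 ρ
  set S : Set ℂ := phi β '' (ball 0 ρ \ {0}) with hS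
  have hSo : IsOpen S := by
    have ho : ∀ ζ ∈ ball (0:ℂ) ρ \ {0}, S ∈ nhds (phi β ζ) := by
      rintro ζ ⟨hζ, hζ0⟩
      have hζ0' : ζ ≠ 0 := hζ0
      have hζ1 : ζ ∈ ball (0:ℂ) 1 := mem_ball_of_sphere hρ1 (ball_subset_closedBall hζ)
      have hst : HasStrictDerivAt (phi β) (dphi β ζ) ζ := by
        have h1 : DifferentiableOn ℂ (phi β) (ball 0 1 \ {0}) := by
          rintro ω ⟨hω, hω0⟩
          exact (hasDerivAt_phi h.diff hω hω0).differentiableAt.differentiableWithinAt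
        have h2 : AnalyticAt ℂ (phi β) ζ :=
          h1.analyticAt ((isOpen_ball.sdiff isClosed_singleton).mem_nhds ⟨hζ1, hζ0⟩)
        have h3 := h2.hasStrictDerivAt
        rwa [(hasDerivAt_phi h.diff hζ1 hζ0').deriv] at h3
      have hd0 : dphi β ζ ≠ 0 := by
        have := h.ne ζ hζ1
        intro h'
        apply this
        have : 1 - ζ ^ 2 * deriv β ζ = - ζ ^ 2 * dphi β ζ := by
          unfold dphi
          field_simp
          ring
        rw [this, h', mul_zero]
      have hmap := hst.map_nhds_eq hd0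
      rw [← hmap]
      exact Filter.image_mem_map ((isOpen_ball.sdiff isClosed_singleton).mem_nhds ⟨hζ, hζ0⟩)
    rw [isOpen_iff_mem_nhds]
    rintro _ ⟨ζ, hζ, rfl⟩
    exact ho ζ hζ
  set T : Set ℂ := {u | w + u ∉ S} with hT
  have hae : ∀ᵐ u : ℂ, (conj u)⁻¹ *
        (∮ ζ in C(0, ρ), dphi β ζ / (phi β ζ - w) / (phi β ζ - w - u)) =
      -(2 * π * I) * ((T.indicator (fun u => (‖u‖ ^ 2)⁻¹) u : ℝ) : ℂ) := by
    have h1 : ∀ᵐ u : ℂ, w + u ∉ phi β '' sphere 0 ρ := by
      have h2 : volume ((fun u => w + u) ⁻¹' (phi β '' sphere 0 ρ)) = 0 := by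
        rw [measure_preimage_add]; exact hnull
      exact measure_eq_zero_iff_ae_notMem.mp h2
    have h2 : ∀ᵐ u : ℂ, u ≠ 0 := by
      have : volume ({0} : Set ℂ) = 0 := measure_singleton 0
      filter_upwards [measure_eq_zero_iff_ae_notMem.mp this] with u hu
      simpa using hu
    filter_upwards [h1, h2] with u hu hu0
    rw [inner_log h hρ hρ1 ha ha0 hu0 hu]
    by_cases huS : w + u ∈ S
    · rw [indicator_of_notMem (by simpa [hT] using huS)]
      obtain ⟨b, ⟨hb, hb0⟩, hbw⟩ := huS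
      rw [← hw, ← hbw, wind_in h hρ hρ1 hb hb0]
      simp
    · rw [indicator_of_mem (by simpa [hT] using huS)]
      rw [wind_out h.diff hρ hρ1]
      · have h7 : (((‖u‖ ^ 2)⁻¹ : ℝ) : ℂ) = u⁻¹ * (conj u)⁻¹ := by
          rw [← mul_inv, Complex.mul_conj, Complex.normSq_eq_norm_sq]
          push_cast
          rfl
        rw [h7]; ring
      · intro ζ hζ hζ0 h'
        rcases lt_or_eq_of_le (show ‖ζ‖ ≤ ρ by simpa using hζ) with h8 | h8
        · exact huS ⟨ζ, ⟨by simpa using h8, hζ0⟩, h'⟩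
        · exact hu ⟨ζ, by simpa using h8, h'⟩
  rw [setIntegral_congr_ae measurableSet_ball (hae.mono fun u hu _ => hu), integral_const_mul,
    integral_complex_ofReal]
  refine ⟨∫ u in ball (0:ℂ) M, T.indicator (fun u => (‖u‖ ^ 2)⁻¹) u, ?_, ?_⟩
  · apply integral_nonneg
    intro u
    apply indicator_nonneg
    intro u _
    positivity
  · have : (π:ℂ) ≠ 0 := by exact_mod_cast Real.pi_ne_zero
    field_simp

end Pool.Agent.Helper39.Area
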