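import Mathlib
set_option autoImplicit false
open Complex MeasureTheory Metric Set Filter Topology
open scoped Real ENNReal ComplexConjugate NNReal

/-! Positivity of the Dirichlet form `∮ conj E dE`. -/

namespace Pool.Agent.Helper39.Area

theorem taylor_term {E : ℂ → ℂ} {R : ℝ} (hR : 0 < R) (hE : DifferentiableOn ℂ E (closedBall 0 R))
    (n : ℕ) (y : ℂ) : (cauchyPowerSeries E 0 R n fun _ => y) =
      y ^ n * (iteratedDeriv n E 0 / n.factorial) := by
  rw [cauchyPowerSeries_apply]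
  have h1 := hE.circleIntegral_one_div_sub_center_pow_smul hR n
  have h2 : (∮ z in C(0, R), (y / (z - 0)) ^ n • (z - 0)⁻¹ • E z) =
      y ^ n * ∮ z in C(0, R), (1 / (z - 0) ^ (n + 1)) • E z := by
    rw [← circleIntegral.integral_const_mul]
    congr 1
    funext z
    simp only [sub_zero, smul_eq_mul, div_pow, pow_succ, one_div, mul_inv]
    ring
  rw [h2, h1]
  have : (2 * π * I : ℂ) ≠ 0 := two_pi_I_ne_zero
  simp only [smul_eq_mul]
  field_simp

theorem sphere_ne' {ρ : ℝ} (hρ : 0 < ρ) {ζ : ℂ} (hζ : ζ ∈ sphere (0:ℂ) ρ) : ζ ≠ 0 := by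
  rintro rfl
  simp at hζ
  exact hρ.ne hζ

theorem conj_sphere {ρ : ℝ} (hρ : 0 < ρ) {ζ : ℂ} (hζ : ζ ∈ sphere (0:ℂ) ρ) :
    conj ζ = (ρ:ℂ) ^ 2 / ζ := by
  have h0 := sphere_ne' hρ hζ
  rw [eq_div_iff h0, mul_comm, Complex.mul_conj, Complex.normSq_eq_norm_sq]
  have : ‖ζ‖ = ρ := by simpa using hζ
  rw [this]
  push_cast
  rfl

theorem deriv_coeff {E : ℂ → ℂ} {R ρ : ℝ} (hE : DifferentiableOn ℂ E (ball 0 R)) (hρ : 0 < ρ)
    (hρR : ρ < R) (n : ℕ) :
    (∮ ζ in C(0, ρ), (ζ ^ n)⁻¹ * deriv E ζ) =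
      2 * π * I * (n * (iteratedDeriv n E 0 / n.factorial)) := by
  have hd : DifferentiableOn ℂ (deriv E) (ball 0 R) := hE.deriv isOpen_ball
  cases n with
  | zero =>
    simp only [pow_zero, inv_one, one_mul, CharP.cast_eq_zero, zero_mul, mul_zero]
    apply circleIntegral.integral_eq_zero_of_hasDerivWithinAt hρ.le (f := E)
    intro ζ hζ
    have h1 : ζ ∈ ball (0:ℂ) R := by
      rw [mem_ball, dist_zero_right]
      rw [mem_sphere, dist_zero_right] at hζ
      linarith
    exact (hE.differentiableAt (isOpen_ball.mem_nhds h1)).hasDerivAt.hasDerivWithinAt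
  | succ n =>
    have h1 := (hd.mono (closedBall_subset_ball hρR)).circleIntegral_one_div_sub_center_pow_smul hρ n
    have h2 : (∮ ζ in C(0, ρ), (ζ ^ (n + 1))⁻¹ * deriv E ζ) =
        ∮ z in C(0, ρ), (1 / (z - 0) ^ (n + 1)) • deriv E z := by
      congr 1
      funext z
      simp
    rw [h2, h1, ← iteratedDeriv_succ', Nat.factorial_succ]
    have h3 : ((n.factorial : ℕ) : ℂ) ≠ 0 := by exact_mod_cast n.factorial_ne_zero
    have h4 : ((n : ℂ) + 1) ≠ 0 := by exact_mod_cast Nat.succ_ne_zero n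
    push_cast
    simp only [smul_eq_mul]
    field_simp

theorem dirichlet_nonneg {E : ℂ → ℂ} {R ρ : ℝ} (hE : DifferentiableOn ℂ E (ball 0 R)) (hρ : 0 < ρ)
    (hρR : ρ < R) :
    ∃ c : ℝ, 0 ≤ c ∧ (∮ ζ in C(0, ρ), conj (E ζ) * deriv E ζ) = 2 * π * I * c := by
  obtain ⟨r, hρr, hrR⟩ := exists_between hρR
  have hr : 0 < r := hρ.trans hρr
  lift r to ℝ≥0 using hr.le
  have hEr : DifferentiableOn ℂ E (closedBall 0 r) := hE.mono (closedBall_subset_ball hrR)
  have hps := hEr.hasFPowerSeriesOnBall (by exact_mod_cast hr)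
  obtain ⟨r', hρr', hr'r⟩ := exists_between hρr
  lift r' to ℝ≥0 using (hρ.trans hρr').le
  have hun := hps.tendstoUniformlyOn (r' := r') (by exact_mod_cast hr'r)
  have hd : DifferentiableOn ℂ (deriv E) (ball 0 R) := hE.deriv isOpen_ball
  have hmem : ∀ ζ ∈ sphere (0:ℂ) ρ, ζ ∈ ball (0:ℂ) R := by
    intro ζ hζ
    rw [mem_ball, dist_zero_right]
    rw [mem_sphere, dist_zero_right] at hζ
    linarith
  have hdc : ContinuousOn (deriv E) (sphere 0 ρ) := hd.continuousOn.mono hmem
  set e : ℕ → ℂ := fun n => iteratedDeriv n E 0 / n.factorial with he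
  have hpart : ∀ (N : ℕ) (y : ℂ), (cauchyPowerSeries E 0 r).partialSum N y =
      ∑ n ∈ Finset.range N, y ^ n * e n := by
    intro N y
    unfold FormalMultilinearSeries.partialSum
    apply Finset.sum_congr rfl
    intro n _
    exact taylor_term hr hEr n y
  set T : ℕ → ℂ → ℂ := fun N y => ∑ n ∈ Finset.range N, y ^ n * e n with hT
  have hTc : ∀ N, Continuous (T N) := by
    intro N
    rw [hT]
    fun_prop
  have hTE : TendstoUniformlyOn T E atTop (sphere 0 ρ) := by
    have h1 : TendstoUniformlyOn T E atTop (ball 0 r') := by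
      have h2 : (fun (n : ℕ) (y : ℂ) => (cauchyPowerSeries E 0 r).partialSum n y) = T := by
        funext N y; exact hpart N y
      rw [h2] at hun
      simpa using hun
    apply h1.mono
    intro ζ hζ
    rw [mem_ball, dist_zero_right]
    rw [mem_sphere, dist_zero_right] at hζ
    linarith
  -- bound for the derivative
  obtain ⟨B, hB⟩ := (isCompact_sphere (0:ℂ) ρ).exists_bound_of_continuousOn hdc
  have hlim : Tendsto (fun N => ∮ ζ in C(0, ρ), conj (T N ζ) * deriv E ζ) atTop
      (𝓝 (∮ ζ in C(0, ρ), conj (E ζ) * deriv E ζ)) := by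
    apply TendstoUniformlyOn.tendsto_circleIntegral_of_continuousOn hρ.le
    · refine Eventually.of_forall fun N => ?_
      exact ((Complex.continuous_conj.comp (hTc N)).continuousOn).mul hdc
    · rw [Metric.tendstoUniformlyOn_iff] at hTE ⊢
      intro ε hε
      have hε' : 0 < ε / (|B| + 1) := by positivity
      filter_upwards [hTE _ hε'] with N hN ζ hζ
      have h1 := hN ζ hζ
      rw [dist_eq_norm] at h1 ⊢
      rw [← sub_mul, ← map_sub, norm_mul, RCLike.norm_conj]
      calc ‖E ζ - T N ζ‖ * ‖deriv E ζ‖ ≤ ‖E ζ - T N ζ‖ * (|B| + 1) := by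
            gcongr
            exact (hB ζ hζ).trans ((le_abs_self B).trans (by linarith))
        _ < ε / (|B| + 1) * (|B| + 1) := by gcongr
        _ = ε := by field_simp
  have hval : ∀ N, (∮ ζ in C(0, ρ), conj (T N ζ) * deriv E ζ) =
      2 * π * I * ((∑ n ∈ Finset.range N, (n:ℝ) * ρ ^ (2 * n) * ‖e n‖ ^ 2 : ℝ) : ℂ) := by
    intro N
    have h1 : (∮ ζ in C(0, ρ), conj (T N ζ) * deriv E ζ) =
        ∮ ζ in C(0, ρ), ∑ n ∈ Finset.range N,
          (ρ:ℂ) ^ (2 * n) * conj (e n) * ((ζ ^ n)⁻¹ * deriv E ζ) := by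
      apply circleIntegral.integral_congr hρ.le
      intro ζ hζ
      simp only [hT, map_sum, map_mul, map_pow, Finset.sum_mul]
      apply Finset.sum_congr rfl
      intro n _
      rw [conj_sphere hρ hζ, div_pow, ← pow_mul, div_eq_mul_inv]
      ring
    rw [h1, circleIntegral.integral_fun_sum]
    · push_cast
      rw [Finset.mul_sum]
      apply Finset.sum_congr rfl
      intro n _
      rw [circleIntegral.integral_const_mul, deriv_coeff hE hρ hρR n]
      have h5 : (((‖e n‖ : ℝ)) : ℂ) ^ 2 = e n * conj (e n) := by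
        rw [Complex.mul_conj, Complex.normSq_eq_norm_sq]
        push_cast
        rfl
      rw [h5]
      ring
    · intro n _
      apply ContinuousOn.circleIntegrable hρ.le
      apply continuousOn_const.mul
      apply ContinuousOn.mul _ hdc
      apply ContinuousOn.inv₀ (by fun_prop)
      intro ζ hζ
      exact pow_ne_zero _ (sphere_ne' hρ hζ)
  -- the limit
  have h2pi : (2 * π * I : ℂ) ≠ 0 := two_pi_I_ne_zero
  set L : ℂ := ∮ ζ in C(0, ρ), conj (E ζ) * deriv E ζ with hL
  set c : ℕ → ℝ := fun N => ∑ n ∈ Finset.range N, (n:ℝ) * ρ ^ (2 * n) * ‖e n‖ ^ 2 with hc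
  have hlim2 : Tendsto (fun N => ((c N : ℝ) : ℂ)) atTop (𝓝 ((2 * π * I : ℂ)⁻¹ * L)) := by
    have := hlim.const_mul ((2 * π * I : ℂ)⁻¹)
    refine this.congr ?_
    intro N
    rw [hval N, ← mul_assoc, inv_mul_cancel₀ h2pi, one_mul]
  have hre := (Complex.continuous_re.tendsto _).comp hlim2
  have him := (Complex.continuous_im.tendsto _).comp hlim2
  refine ⟨((2 * π * I : ℂ)⁻¹ * L).re, ?_, ?_⟩
  · apply ge_of_tendsto' hre
    intro N
    simp only [Function.comp, Complex.ofReal_re, hc]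
    positivity
  · have him0 : ((2 * π * I : ℂ)⁻¹ * L).im = 0 := by
      have h1 : (Complex.im ∘ fun N => ((c N : ℝ) : ℂ)) = fun _ => (0:ℝ) := by
        funext N; simp
      rw [h1] at him
      exact (tendsto_nhds_unique him tendsto_const_nhds)
    have h3 : ((((2 * π * I : ℂ)⁻¹ * L).re : ℝ) : ℂ) = (2 * π * I : ℂ)⁻¹ * L := by
      apply Complex.ext
      · simp
      · simp only [Complex.ofReal_im]; exact him0.symm
    rw [h3, ← mul_assoc, mul_inv_cancel₀ h2pi, one_mul]

end Pool.Agent.Helper39.Area
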