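import Pool.Agent.Helper39.Area.AreaLog
import Pool.Agent.Helper39.Area.Dirichlet
set_option autoImplicit false
open Complex MeasureTheory Metric Set Filter Topology
open scoped Real ENNReal ComplexConjugate NNReal

/-! The Goluzin inequality at one point. -/

namespace Pool.Agent.Helper39.Area

/-- conjugate of a circle integral -/
theorem conj_circle {ρ : ℝ} (hρ : 0 < ρ) (f : ℂ → ℂ) :
    conj (∮ ζ in C(0, ρ), f ζ) = ∮ ζ in C(0, ρ), (-((ρ:ℂ) ^ 2 / ζ ^ 2)) * conj (f ζ) := by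
  rw [circleIntegral, circleIntegral, intervalIntegral.integral_of_le Real.two_pi_pos.le,
    intervalIntegral.integral_of_le Real.two_pi_pos.le, ← integral_conj]
  congr 1
  funext θ
  have hne : circleMap 0 ρ θ ≠ 0 := circleMap_ne_center (c := 0) (θ := θ) hρ.ne'
  have hc : conj (circleMap 0 ρ θ) = (ρ:ℂ) ^ 2 / circleMap 0 ρ θ :=
    conj_sphere hρ (circleMap_mem_sphere 0 hρ.le θ)
  simp only [deriv_circleMap, smul_eq_mul, map_mul, Complex.conj_I, hc]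
  field_simp

theorem parts {ρ : ℝ} (hρ : 0 < ρ) {f g f' g' : ℂ → ℂ}
    (hf : ∀ ζ ∈ sphere (0:ℂ) ρ, HasDerivAt f (f' ζ) ζ)
    (hg : ∀ ζ ∈ sphere (0:ℂ) ρ, HasDerivAt g (g' ζ) ζ)
    (hf' : ContinuousOn f' (sphere 0 ρ)) (hg' : ContinuousOn g' (sphere 0 ρ)) :
    (∮ ζ in C(0, ρ), f ζ * g' ζ) = - ∮ ζ in C(0, ρ), g ζ * f' ζ := by
  have hfc : ContinuousOn f (sphere 0 ρ) := fun ζ hζ => (hf ζ hζ).continuousAt.continuousWithinAt
  have hgc : ContinuousOn g (sphere 0 ρ) := fun ζ hζ => (hg ζ hζ).continuousAt.continuousWithinAt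
  have h1 : (∮ ζ in C(0, ρ), (f' ζ * g ζ + f ζ * g' ζ)) = 0 := by
    apply circleIntegral.integral_eq_zero_of_hasDerivWithinAt hρ.le (f := fun ζ => f ζ * g ζ)
    intro ζ hζ
    exact ((hf ζ hζ).mul (hg ζ hζ)).hasDerivWithinAt
  have hi1 : CircleIntegrable (fun ζ => f' ζ * g ζ) 0 ρ := (hf'.mul hgc).circleIntegrable hρ.le
  have hi2 : CircleIntegrable (fun ζ => f ζ * g' ζ) 0 ρ := (hfc.mul hg').circleIntegrable hρ.le
  rw [circleIntegral.integral_add hi1 hi2] at h1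
  have h2 : (∮ ζ in C(0, ρ), f' ζ * g ζ) = ∮ ζ in C(0, ρ), g ζ * f' ζ := by
    congr 1; funext ζ; ring
  rw [h2] at h1
  linear_combination h1

theorem cauchy_zero {ρ R : ℝ} (hρ : 0 < ρ) (hρR : ρ < R) {W : ℂ → ℂ}
    (hW : DifferentiableOn ℂ W (ball 0 R)) : (∮ ζ in C(0, ρ), W ζ) = 0 := by
  apply Complex.circleIntegral_eq_zero_of_differentiable_on_off_countable hρ.le countable_empty
  · exact hW.continuousOn.mono (closedBall_subset_ball hρR)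
  · intro ζ hζ
    exact hW.differentiableAt (isOpen_ball.mem_nhds
      (closedBall_subset_ball hρR (ball_subset_closedBall hζ.1)))

/-- derivative of `log (1 - a / ζ)` -/
noncomputable def gp (a ζ : ℂ) : ℂ := (ζ - a)⁻¹ - ζ⁻¹

/-- reproducing property -/
theorem repro {ρ R : ℝ} (hρ : 0 < ρ) (hρR : ρ < R) {W : ℂ → ℂ}
    (hW : DifferentiableOn ℂ W (ball 0 R)) {a : ℂ} (ha : a ∈ ball (0:ℂ) ρ) :
    (∮ ζ in C(0, ρ), W ζ * gp a ζ) = 2 * π * I * (W a - W 0) := by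
  have hWc : DifferentiableOn ℂ W (closedBall 0 ρ) := hW.mono (closedBall_subset_ball hρR)
  have h1 := hWc.circleIntegral_sub_inv_smul ha
  have h2 := hWc.circleIntegral_sub_inv_smul (mem_ball_self hρ)
  have hWs : ContinuousOn W (sphere 0 ρ) := hWc.continuousOn.mono sphere_subset_closedBall
  have hc : ∀ b ∈ ball (0:ℂ) ρ, CircleIntegrable (fun z => (z - b)⁻¹ • W z) 0 ρ := by
    intro b hb
    apply ContinuousOn.circleIntegrable hρ.le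
    have hb' : ContinuousOn (fun z : ℂ => (z - b)⁻¹) (sphere 0 ρ) := by
      apply ContinuousOn.inv₀ (by fun_prop)
      intro ζ hζ h'
      rw [sub_eq_zero] at h'
      subst h'
      simp at hζ hb
      linarith
    exact hb'.smul hWs
  have h3 : (∮ ζ in C(0, ρ), W ζ * gp a ζ) =
      ∮ ζ in C(0, ρ), ((ζ - a)⁻¹ • W ζ - (ζ - 0)⁻¹ • W ζ) := by
    congr 1
    funext ζ
    simp only [gp, smul_eq_mul, sub_zero]
    ring
  rw [h3, circleIntegral.integral_sub (hc a ha) (hc 0 (mem_ball_self hρ)), h1, h2]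
  simp only [smul_eq_mul]
  ring

section

variable {ρ : ℝ} {a : ℂ}

/-- `log (1 - conj a ζ / ρ²)` -/
noncomputable def Lam (ρ : ℝ) (a ζ : ℂ) : ℂ := Complex.log (1 - conj a * ζ / (ρ:ℂ) ^ 2)

noncomputable def Lamp (ρ : ℝ) (a ζ : ℂ) : ℂ := (-(conj a / (ρ:ℂ) ^ 2)) / (1 - conj a * ζ / (ρ:ℂ) ^ 2)

theorem lam_re (hρ : 0 < ρ) (_ha : a ∈ ball (0:ℂ) ρ) (ha0 : a ≠ 0) {ζ : ℂ}
    (hζ : ζ ∈ ball (0:ℂ) (ρ ^ 2 / ‖a‖)) : 0 < (1 - conj a * ζ / (ρ:ℂ) ^ 2).re := by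
  have ha' : 0 < ‖a‖ := norm_pos_iff.mpr ha0
  have h1 : ‖conj a * ζ / (ρ:ℂ) ^ 2‖ < 1 := by
    rw [norm_div, norm_mul, RCLike.norm_conj, norm_pow, Complex.norm_real, Real.norm_eq_abs,
      abs_of_pos hρ, div_lt_one (by positivity)]
    rw [mem_ball, dist_zero_right, lt_div_iff₀ ha'] at hζ
    linarith
  have h2 := (abs_le.mp (Complex.abs_re_le_norm (conj a * ζ / (ρ:ℂ) ^ 2))).2
  rw [Complex.sub_re, Complex.one_re]
  linarith

theorem lam_hasDeriv (hρ : 0 < ρ) (ha : a ∈ ball (0:ℂ) ρ) (ha0 : a ≠ 0) {ζ : ℂ}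
    (hζ : ζ ∈ ball (0:ℂ) (ρ ^ 2 / ‖a‖)) : HasDerivAt (Lam ρ a) (Lamp ρ a ζ) ζ := by
  have h1 : HasDerivAt (fun ζ : ℂ => 1 - conj a * ζ / (ρ:ℂ) ^ 2) (-(conj a / (ρ:ℂ) ^ 2)) ζ := by
    have h2 := (((hasDerivAt_id ζ).const_mul (conj a)).div_const ((ρ:ℂ) ^ 2)).const_sub 1
    have e : (-(conj a / (ρ:ℂ) ^ 2)) = -(conj a * 1 / (ρ:ℂ) ^ 2) := by ring
    rw [e]
    exact h2
  exact h1.clog (Or.inl (lam_re hρ ha ha0 hζ))

theorem rad_lt (hρ : 0 < ρ) (ha : a ∈ ball (0:ℂ) ρ) (ha0 : a ≠ 0) : ρ < ρ ^ 2 / ‖a‖ := by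
  have ha' : 0 < ‖a‖ := norm_pos_iff.mpr ha0
  rw [lt_div_iff₀ ha']
  rw [mem_ball, dist_zero_right] at ha
  nlinarith

theorem lam_diff (hρ : 0 < ρ) (ha : a ∈ ball (0:ℂ) ρ) (ha0 : a ≠ 0) :
    DifferentiableOn ℂ (Lam ρ a) (ball 0 (ρ ^ 2 / ‖a‖)) := fun _ hζ =>
  (lam_hasDeriv hρ ha ha0 hζ).differentiableAt.differentiableWithinAt

theorem conj_lam (hρ : 0 < ρ) (ha : a ∈ ball (0:ℂ) ρ) (ha0 : a ≠ 0) {ζ : ℂ}
    (hζ : ζ ∈ sphere (0:ℂ) ρ) : conj (Lam ρ a ζ) = Complex.log (1 - a / ζ) := by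
  have h1 : ζ ∈ ball (0:ℂ) (ρ ^ 2 / ‖a‖) := by
    have := rad_lt hρ ha ha0
    rw [mem_ball, dist_zero_right]
    rw [mem_sphere, dist_zero_right] at hζ
    linarith
  have h2 := lam_re hρ ha ha0 h1
  have h3 : (1 - conj a * ζ / (ρ:ℂ) ^ 2).arg ≠ π := by
    intro h
    rw [Complex.arg_eq_pi_iff] at h
    linarith [h.1]
  rw [Lam, ← Complex.log_conj _ h3]
  congr 1
  have hρ' : (ρ:ℂ) ≠ 0 := by exact_mod_cast hρ.ne'
  have h0 := sphere_ne' hρ hζ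
  simp only [map_sub, map_one, map_div₀, map_mul, Complex.conj_conj, map_pow, Complex.conj_ofReal]
  rw [conj_sphere hρ hζ]
  field_simp

theorem g_hasDeriv (ha : a ∈ ball (0:ℂ) ρ) (hρ : 0 < ρ) {ζ : ℂ}
    (hζ : ζ ∈ sphere (0:ℂ) ρ) : HasDerivAt (fun ζ => Complex.log (1 - a / ζ)) (gp a ζ) ζ := by
  have h0 := sphere_ne' hρ hζ
  have hne : ζ - a ≠ 0 := by
    intro h'
    rw [sub_eq_zero] at h'
    subst h'
    simp at hζ ha
    linarith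
  have h1 : HasDerivAt (fun ζ : ℂ => 1 - a / ζ) (a / ζ ^ 2) ζ := by
    have h2 := ((hasDerivAt_inv h0).const_mul a).const_sub 1
    have e : a / ζ ^ 2 = -(a * -(ζ ^ 2)⁻¹) := by field_simp
    rw [e]
    exact h2
  have h2 : 0 < (1 - a / ζ).re := by
    have h3 : ‖a / ζ‖ < 1 := by
      rw [norm_div]
      rw [mem_ball, dist_zero_right] at ha
      rw [mem_sphere, dist_zero_right] at hζ
      rw [hζ, div_lt_one hρ]
      exact ha
    have h4 := (abs_le.mp (Complex.abs_re_le_norm (a / ζ))).2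
    rw [Complex.sub_re, Complex.one_re]
    linarith
  have h5 := h1.clog (Or.inl h2)
  have e : a / ζ ^ 2 / (1 - a / ζ) = gp a ζ := by
    unfold gp
    have h6 : 1 - a / ζ = (ζ - a) / ζ := by field_simp
    rw [h6]
    field_simp
    ring
  rw [← e]
  exact h5

theorem gp_cont (ha : a ∈ ball (0:ℂ) ρ) (hρ : 0 < ρ) : ContinuousOn (gp a) (sphere 0 ρ) := by
  apply ContinuousOn.sub
  · apply ContinuousOn.inv₀ (by fun_prop)
    intro ζ hζ h'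
    rw [sub_eq_zero] at h'
    subst h'
    simp at hζ ha
    linarith
  · exact ContinuousOn.inv₀ (by fun_prop) (fun ζ hζ => sphere_ne' hρ hζ)

/-- relation between the two derivatives -/
theorem lamp_eq (hρ : 0 < ρ) (ha : a ∈ ball (0:ℂ) ρ) (ha0 : a ≠ 0) {ζ : ℂ}
    (hζ : ζ ∈ sphere (0:ℂ) ρ) : (-((ρ:ℂ) ^ 2 / ζ ^ 2)) * conj (gp a ζ) = Lamp ρ a ζ := by
  have h1 : ζ ∈ ball (0:ℂ) (ρ ^ 2 / ‖a‖) := by
    have := rad_lt hρ ha ha0
    rw [mem_ball, dist_zero_right]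
    rw [mem_sphere, dist_zero_right] at hζ
    linarith
  have h2 := lam_re hρ ha ha0 h1
  have hne : 1 - conj a * ζ / (ρ:ℂ) ^ 2 ≠ 0 := by
    intro h; rw [h] at h2; simp at h2
  have hρ' : (ρ:ℂ) ≠ 0 := by exact_mod_cast hρ.ne'
  have h0 := sphere_ne' hρ hζ
  have h3 : (ρ:ℂ) ^ 2 - conj a * ζ ≠ 0 := by
    intro h
    apply hne
    rw [sub_eq_zero] at h
    rw [← h]
    field_simp
    ring
  have h4 : (ρ:ℂ) ^ 2 / ζ - conj a = ((ρ:ℂ) ^ 2 - conj a * ζ) / ζ := by field_simp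
  have h5 : 1 - conj a * ζ / (ρ:ℂ) ^ 2 = ((ρ:ℂ) ^ 2 - conj a * ζ) / (ρ:ℂ) ^ 2 := by field_simp
  unfold gp Lamp
  simp only [map_sub, map_inv₀]
  rw [conj_sphere hρ hζ, h4, h5]
  generalize conj a = x at h3 ⊢
  have h6 : (ρ:ℂ) ^ 2 - ζ * x ≠ 0 := by rwa [mul_comm] at h3
  field_simp
  ring

theorem gp_eq (hρ : 0 < ρ) (ha : a ∈ ball (0:ℂ) ρ) (ha0 : a ≠ 0) {ζ : ℂ}
    (hζ : ζ ∈ sphere (0:ℂ) ρ) : (-((ρ:ℂ) ^ 2 / ζ ^ 2)) * conj (Lamp ρ a ζ) = gp a ζ := by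
  rw [← lamp_eq hρ ha ha0 hζ]
  have hρ' : (ρ:ℂ) ≠ 0 := by exact_mod_cast hρ.ne'
  have h0 := sphere_ne' hρ hζ
  simp only [map_mul, map_neg, map_div₀, map_pow, Complex.conj_ofReal, Complex.conj_conj]
  rw [conj_sphere hρ hζ]
  field_simp

theorem lamp_cont (hρ : 0 < ρ) (ha : a ∈ ball (0:ℂ) ρ) (ha0 : a ≠ 0) :
    ContinuousOn (Lamp ρ a) (sphere 0 ρ) := by
  unfold Lamp
  apply ContinuousOn.div continuousOn_const (by fun_prop)
  intro ζ hζ h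
  have h1 : ζ ∈ ball (0:ℂ) (ρ ^ 2 / ‖a‖) := by
    have := rad_lt hρ ha ha0
    rw [mem_ball, dist_zero_right]
    rw [mem_sphere, dist_zero_right] at hζ
    linarith
  have h2 := lam_re hρ ha ha0 h1
  rw [h] at h2; simp at h2

end

end Pool.Agent.Helper39.Area
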