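import Mathlib
set_option autoImplicit false
open Complex MeasureTheory Metric Set
open scoped Real ENNReal ComplexConjugate

/-! The Cauchy kernel: `∫_{|u| < M} conj u ^ k / (v - u) dA(u) = π conj v ^ (k+1) / (k+1)`. -/

namespace Pool.Agent.Helper39.Area

theorem circle_inv_out {ρ : ℝ} (hρ : 0 < ρ) {v : ℂ} (hv : ρ < ‖v‖) :
    (∮ w in C(0, ρ), (v - w)⁻¹) = 0 := by
  apply Complex.circleIntegral_eq_zero_of_differentiable_on_off_countable hρ.le countable_empty
  · apply ContinuousOn.inv₀ (by fun_prop)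
    intro w hw h
    rw [sub_eq_zero] at h
    subst h
    rw [mem_closedBall, dist_zero_right] at hw
    linarith
  · intro w hw
    have hw' : w ∈ ball (0:ℂ) ρ := hw.1
    apply DifferentiableAt.inv (by fun_prop)
    intro h
    rw [sub_eq_zero] at h
    subst h
    rw [mem_ball, dist_zero_right] at hw'
    linarith

theorem circle_inv_in {ρ : ℝ} {v : ℂ} (hv : ‖v‖ < ρ) :
    (∮ w in C(0, ρ), (v - w)⁻¹) = - (2 * π * I) := by
  have h := circleIntegral.integral_sub_inv_of_mem_ball (c := 0) (w := v) (R := ρ)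
    (by simpa using hv)
  have h2 : (∮ w in C(0, ρ), (v - w)⁻¹) = ∮ w in C(0, ρ), (-1 : ℂ) * (w - v)⁻¹ := by
    congr 1
    funext w
    rw [← neg_sub w v, inv_neg]; ring
  rw [h2, circleIntegral.integral_const_mul, h]
  ring

theorem circle_pow_inv (ρ : ℝ) (k : ℕ) :
    (∮ w in C(0, ρ), (w ^ (k + 2))⁻¹) = 0 := by
  have h := circleIntegral.integral_sub_zpow_of_ne (n := -((k:ℤ) + 2)) (by omega) (0:ℂ) 0 ρ
  rw [← h]
  congr 1
  funext w
  rw [sub_zero, zpow_neg]
  norm_cast

theorem circle_inv_zero {ρ : ℝ} (hρ : 0 < ρ) :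
    (∮ w in C(0, ρ), (w ^ (0 + 1))⁻¹) = 2 * π * I := by
  have h := circleIntegral.integral_sub_center_inv (0:ℂ) hρ.ne'
  simpa using h

theorem cont_pow_inv {ρ : ℝ} (hρ : 0 < ρ) (k : ℕ) :
    CircleIntegrable (fun w : ℂ => (w ^ k)⁻¹) 0 ρ := by
  apply ContinuousOn.circleIntegrable hρ.le
  apply ContinuousOn.inv₀ (by fun_prop)
  intro w hw
  apply pow_ne_zero
  rintro rfl
  simp at hw
  exact hρ.ne hw

theorem cont_sub_inv {ρ : ℝ} {v : ℂ} (hv : ‖v‖ ≠ ρ) :
    ContinuousOn (fun w : ℂ => (v - w)⁻¹) (sphere 0 ρ) := by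
  apply ContinuousOn.inv₀ (by fun_prop)
  intro w hw h
  rw [sub_eq_zero] at h
  subst h
  simp at hw
  exact hv hw

theorem circle_kernel {ρ : ℝ} (hρ : 0 < ρ) {v : ℂ} (hv0 : v ≠ 0) (hv : ‖v‖ ≠ ρ) (k : ℕ) :
    (∮ w in C(0, ρ), (w ^ (k + 1))⁻¹ * (v - w)⁻¹) =
      if ρ < ‖v‖ then 2 * π * I * (v ^ (k + 1))⁻¹ else 0 := by
  have hcs := cont_sub_inv hv
  have hint : ∀ j : ℕ, CircleIntegrable (fun w : ℂ => (w ^ j)⁻¹ * (v - w)⁻¹) 0 ρ := by
    intro j
    apply ContinuousOn.circleIntegrable hρ.le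
    apply ContinuousOn.mul _ hcs
    apply ContinuousOn.inv₀ (by fun_prop)
    intro w hw
    apply pow_ne_zero
    rintro rfl
    simp at hw
    exact hρ.ne hw
  have key : ∀ j : ℕ, (∮ w in C(0, ρ), (w ^ (j + 1))⁻¹ * (v - w)⁻¹) =
      v⁻¹ * ((∮ w in C(0, ρ), (w ^ (j + 1))⁻¹) + ∮ w in C(0, ρ), (w ^ j)⁻¹ * (v - w)⁻¹) := by
    intro j
    rw [← circleIntegral.integral_add (cont_pow_inv hρ _) (hint j),
      ← circleIntegral.integral_const_mul]
    apply circleIntegral.integral_congr hρ.le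
    intro w hw
    have hw0 : w ≠ 0 := by
      rintro rfl
      simp at hw
      exact hρ.ne hw
    have hvw : v - w ≠ 0 := by
      intro h
      rw [sub_eq_zero] at h
      subst h
      simp at hw
      exact hv hw
    simp only
    field_simp
    ring
  induction k with
  | zero =>
    rw [key 0, circle_inv_zero hρ]
    simp only [pow_zero, inv_one, one_mul]
    split_ifs with h
    · rw [circle_inv_out hρ h]; simp; ring
    · rw [circle_inv_in (lt_of_le_of_ne (not_lt.mp h) hv)]; simp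
  | succ k ih =>
    rw [key (k + 1), circle_pow_inv, ih]
    split_ifs with h
    · field_simp
      ring
    · simp

/-- the angular integral -/
theorem angular {ρ : ℝ} (hρ : 0 < ρ) {v : ℂ} (hv : ‖v‖ ≠ ρ) (k : ℕ) :
    (∫ θ in Ioo (-π) π, conj (Complex.polarCoord.symm (ρ, θ)) ^ k /
      (v - Complex.polarCoord.symm (ρ, θ))) =
      if ρ < ‖v‖ then 2 * π * ρ ^ (2 * k) * (v ^ (k + 1))⁻¹ else 0 := by
  have e1 : ∀ θ : ℝ, Complex.polarCoord.symm (ρ, θ) = circleMap 0 ρ θ := by
    intro θ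
    rw [Complex.polarCoord_symm_apply, circleMap, zero_add, Complex.exp_mul_I]
    simp
  simp_rw [e1]
  rw [← integral_Ioc_eq_integral_Ioo, ← intervalIntegral.integral_of_le (by linarith [Real.pi_pos])]
  have hper : Function.Periodic (fun θ : ℝ => conj (circleMap 0 ρ θ) ^ k / (v - circleMap 0 ρ θ))
      (2 * π) := by
    intro θ
    simp only [periodic_circleMap 0 ρ θ]
  have h2 := hper.intervalIntegral_add_eq (-π) 0
  rw [show -π + 2 * π = π by ring, zero_add] at h2
  rw [h2]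
  -- express through a circle integral
  have e2 : (∫ θ in (0:ℝ)..2 * π, conj (circleMap 0 ρ θ) ^ k / (v - circleMap 0 ρ θ)) =
      (∮ w in C(0, ρ), ((ρ:ℂ) ^ (2 * k) * (-I)) * ((w ^ (k + 1))⁻¹ * (v - w)⁻¹)) := by
    rw [circleIntegral]
    apply intervalIntegral.integral_congr
    intro θ _
    simp only [deriv_circleMap, smul_eq_mul]
    have hne : circleMap 0 ρ θ ≠ 0 := circleMap_ne_center (c := 0) (θ := θ) hρ.ne'
    have hc : conj (circleMap 0 ρ θ) = (ρ:ℂ) ^ 2 * (circleMap 0 ρ θ)⁻¹ := by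
      rw [eq_mul_inv_iff_mul_eq₀ hne, mul_comm, Complex.mul_conj, Complex.normSq_eq_norm_sq]
      simp [abs_of_pos hρ]
    rw [hc, mul_pow, ← pow_mul, pow_succ, mul_inv, inv_pow, div_eq_mul_inv]
    have hI : I * -I = 1 := by simp
    linear_combination (-(((ρ:ℂ) ^ (2 * k)) * (circleMap 0 ρ θ ^ k)⁻¹ * (v - circleMap 0 ρ θ)⁻¹)) * hI * (circleMap 0 ρ θ * (circleMap 0 ρ θ)⁻¹) + (-(((ρ:ℂ) ^ (2 * k)) * (circleMap 0 ρ θ ^ k)⁻¹ * (v - circleMap 0 ρ θ)⁻¹)) * (mul_inv_cancel₀ hne)
  rw [e2, circleIntegral.integral_const_mul]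
  by_cases hv0 : v = 0
  · subst hv0
    have h3 : (∮ w in C(0, ρ), (w ^ (k + 1))⁻¹ * ((0:ℂ) - w)⁻¹) =
        ∮ w in C(0, ρ), (-1 : ℂ) * (w ^ (k + 2))⁻¹ := by
      congr 1
      funext w
      rw [zero_sub, inv_neg, pow_succ, pow_succ, pow_succ, mul_inv, mul_inv, mul_inv]
      ring
    rw [h3, circleIntegral.integral_const_mul, circle_pow_inv]
    simp
  · rw [circle_kernel hρ hv0 hv]
    split_ifs with h
    · have hI : I * -I = 1 := by simp
      linear_combination (2 * π * (ρ:ℂ) ^ (2 * k) * (v ^ (k + 1))⁻¹) * hI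
    · simp

/-- local integrability of the Cauchy kernel, uniformly -/
theorem lint_inv_ball (M : ℝ) :
    ∫⁻ u in ball (0:ℂ) M, ENNReal.ofReal (‖u‖⁻¹) ≤ ENNReal.ofReal (2 * π * M) := by
  rw [← lintegral_indicator measurableSet_ball, ← Complex.lintegral_comp_polarCoord_symm]
  calc _ ≤ ∫⁻ p in polarCoord.target, (Ioo 0 M ×ˢ Ioo (-π) π).indicator (fun _ => (1 : ℝ≥0∞)) p := by
        apply setLIntegral_mono
        · exact measurable_const.indicator (measurableSet_Ioo.prod measurableSet_Ioo)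
        rintro ⟨r, θ⟩ ⟨hr, hθ⟩
        simp only [mem_Ioi] at hr
        by_cases hrM : r < M
        · rw [indicator_of_mem (show (r, θ) ∈ Ioo 0 M ×ˢ Ioo (-π) π from ⟨⟨hr, hrM⟩, hθ⟩),
            indicator_of_mem (by rw [mem_ball, dist_zero_right, Complex.norm_polarCoord_symm, abs_of_pos hr]; exact hrM),
            Complex.norm_polarCoord_symm, abs_of_pos hr, smul_eq_mul, ← ENNReal.ofReal_mul hr.le,
            mul_inv_cancel₀ hr.ne']
          simp
        · rw [indicator_of_notMem (by rw [mem_ball, dist_zero_right, Complex.norm_polarCoord_symm, abs_of_pos hr]; exact hrM)]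
          simp
    _ ≤ ∫⁻ p, (Ioo 0 M ×ˢ Ioo (-π) π).indicator (fun _ => (1 : ℝ≥0∞)) p :=
        setLIntegral_le_lintegral _ _
    _ = ENNReal.ofReal (2 * π * M) := by
        rw [lintegral_indicator (measurableSet_Ioo.prod measurableSet_Ioo), setLIntegral_one,
          Measure.volume_eq_prod, Measure.prod_prod, Real.volume_Ioo, Real.volume_Ioo]
        rcases le_total M 0 with h | h
        · rw [ENNReal.ofReal_of_nonpos (by linarith), zero_mul, ENNReal.ofReal_of_nonpos]
          nlinarith [Real.pi_pos]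
        · rw [← ENNReal.ofReal_mul (by linarith)]
          congr 1; ring

theorem lint_inv (v : ℂ) (M : ℝ) :
    ∫⁻ u in ball (0:ℂ) M, ENNReal.ofReal (‖v - u‖⁻¹) ≤ ENNReal.ofReal (2 * π * (‖v‖ + M)) := by
  rw [← lintegral_indicator measurableSet_ball]
  calc ∫⁻ u, (ball (0:ℂ) M).indicator (fun u => ENNReal.ofReal (‖v - u‖⁻¹)) u
      ≤ ∫⁻ u, (ball (0:ℂ) (‖v‖ + M)).indicator (fun u => ENNReal.ofReal (‖u‖⁻¹)) (v - u) := by
        apply lintegral_mono
        intro u
        by_cases hu : u ∈ ball (0:ℂ) M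
        · have h2 : v - u ∈ ball (0:ℂ) (‖v‖ + M) := by
            rw [mem_ball, dist_zero_right] at hu ⊢
            linarith [norm_sub_le v u]
          rw [indicator_of_mem hu]
          show _ ≤ (ball (0:ℂ) (‖v‖ + M)).indicator (fun u => ENNReal.ofReal (‖u‖⁻¹)) (v - u)
          rw [indicator_of_mem h2]
        · rw [indicator_of_notMem hu]; exact zero_le
    _ = ∫⁻ u, (ball (0:ℂ) (‖v‖ + M)).indicator (fun u => ENNReal.ofReal (‖u‖⁻¹)) u :=
        lintegral_sub_left_eq_self _ v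
    _ ≤ _ := by
        rw [lintegral_indicator measurableSet_ball]
        exact lint_inv_ball _

theorem integrable_inv (v : ℂ) (M : ℝ) :
    IntegrableOn (fun u : ℂ => ‖v - u‖⁻¹) (ball (0:ℂ) M) := by
  refine ⟨(by fun_prop : Measurable fun u : ℂ => ‖v - u‖⁻¹).aestronglyMeasurable, ?_⟩
  rw [hasFiniteIntegral_iff_enorm]
  refine lt_of_le_of_lt ?_ (lt_of_le_of_lt (lint_inv v M) ENNReal.ofReal_lt_top)
  apply lintegral_mono
  intro u
  simp only
  rw [← ofReal_norm, Real.norm_of_nonneg (by positivity)]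

theorem integrable_kernel (k : ℕ) (M : ℝ) (v : ℂ) :
    IntegrableOn (fun u : ℂ => conj u ^ k / (v - u)) (ball (0:ℂ) M) := by
  have h := (integrable_inv v M).const_mul (M ^ k)
  refine Integrable.mono' h ?_ ?_
  · apply Measurable.aestronglyMeasurable
    apply Measurable.div _ (by fun_prop)
    exact (Complex.continuous_conj.measurable).pow_const k
  · rw [ae_restrict_iff' measurableSet_ball]
    refine Filter.Eventually.of_forall ?_
    intro u hu
    rw [mem_ball, dist_zero_right] at hu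
    rw [norm_div, norm_pow, RCLike.norm_conj, div_eq_mul_inv]
    gcongr

theorem kernel (k : ℕ) (M : ℝ) (v : ℂ) (hv : ‖v‖ < M) :
    ∫ u in ball (0:ℂ) M, conj u ^ k / (v - u) = π * conj v ^ (k + 1) / (k + 1) := by
  have hM : 0 < M := lt_of_le_of_lt (norm_nonneg v) hv
  set f : ℂ → ℂ := (ball (0:ℂ) M).indicator (fun u => conj u ^ k / (v - u)) with hf
  have hfi : Integrable f := by
    rw [hf, integrable_indicator_iff measurableSet_ball]
    exact integrable_kernel k M v
  have hfm : Measurable f := by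
    apply Measurable.indicator _ measurableSet_ball
    apply Measurable.div _ (by fun_prop)
    exact (Complex.continuous_conj.measurable).pow_const k
  have hsm : Measurable (fun p : ℝ × ℝ => (Complex.polarCoord.symm p : ℂ)) := by
    simp only [Complex.polarCoord_symm_apply]
    fun_prop
  have hprod : IntegrableOn (fun p : ℝ × ℝ => p.1 • f (Complex.polarCoord.symm p))
      (Ioi (0:ℝ) ×ˢ Ioo (-π) π) := by
    refine ⟨(measurable_fst.smul (hfm.comp hsm)).aestronglyMeasurable, ?_⟩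
    rw [hasFiniteIntegral_iff_enorm]
    have h1 := Complex.lintegral_comp_polarCoord_symm (fun u => ‖f u‖ₑ)
    have h2 : (∫⁻ p in Ioi (0:ℝ) ×ˢ Ioo (-π) π, ‖p.1 • f (Complex.polarCoord.symm p)‖ₑ) =
        ∫⁻ p in polarCoord.target, ENNReal.ofReal p.1 • ‖f (Complex.polarCoord.symm p)‖ₑ := by
      apply setLIntegral_congr_fun (measurableSet_Ioi.prod measurableSet_Ioo)
      rintro ⟨r, θ⟩ ⟨hr, hθ⟩
      simp only [mem_Ioi] at hr
      simp only [smul_eq_mul]
      rw [enorm_smul]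
      congr 1
      rw [← ofReal_norm, Real.norm_of_nonneg hr.le]
    rw [h2, h1]
    exact hfi.2
  rw [← integral_indicator measurableSet_ball, ← hf, ← Complex.integral_comp_polarCoord_symm]
  rw [show polarCoord.target = Ioi (0:ℝ) ×ˢ Ioo (-π) π from rfl]
  rw [Measure.volume_eq_prod] at hprod ⊢
  rw [setIntegral_prod _ hprod]
  -- the inner integral
  have hin : ∀ r ∈ Ioi (0:ℝ), r ≠ ‖v‖ → r ≠ M →
      (∫ θ in Ioo (-π) π, (r, θ).1 • f (Complex.polarCoord.symm (r, θ))) =
        (Ioo 0 ‖v‖).indicator (fun r : ℝ => 2 * π * (v ^ (k + 1))⁻¹ * ((r ^ (2 * k + 1) : ℝ) : ℂ)) r := by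
    intro r hr hrv _
    simp only [mem_Ioi] at hr
    by_cases hrM : r < M
    · have e : ∀ θ, (r, θ).1 • f (Complex.polarCoord.symm (r, θ)) =
          (r : ℂ) * (conj (Complex.polarCoord.symm (r, θ)) ^ k / (v - Complex.polarCoord.symm (r, θ))) := by
        intro θ
        rw [hf, indicator_of_mem (by rw [mem_ball, dist_zero_right, Complex.norm_polarCoord_symm, abs_of_pos hr]; exact hrM)]
        simp
      simp_rw [e]
      rw [integral_const_mul, angular hr (Ne.symm hrv) k]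
      by_cases h : r < ‖v‖
      · rw [if_pos h, indicator_of_mem (show r ∈ Ioo 0 ‖v‖ from ⟨hr, h⟩)]
        push_cast
        ring
      · rw [if_neg h, indicator_of_notMem (fun h' => h h'.2), mul_zero]
    · have e : ∀ θ, (r, θ).1 • f (Complex.polarCoord.symm (r, θ)) = 0 := by
        intro θ
        rw [hf, indicator_of_notMem (by rw [mem_ball, dist_zero_right, Complex.norm_polarCoord_symm, abs_of_pos hr]; exact hrM)]
        simp
      simp_rw [e]
      rw [indicator_of_notMem (fun h' => hrM (h'.2.trans hv))]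
      simp
  have hae : (∫ r in Ioi (0:ℝ), ∫ θ in Ioo (-π) π, (r, θ).1 • f (Complex.polarCoord.symm (r, θ))) =
      ∫ r in Ioi (0:ℝ), (Ioo 0 ‖v‖).indicator
        (fun r : ℝ => 2 * π * (v ^ (k + 1))⁻¹ * ((r ^ (2 * k + 1) : ℝ) : ℂ)) r := by
    apply setIntegral_congr_ae measurableSet_Ioi
    have h1 : ∀ᵐ r : ℝ, r ≠ ‖v‖ := by
      simp [ae_iff, measure_singleton]
    have h2 : ∀ᵐ r : ℝ, r ≠ M := by
      simp [ae_iff, measure_singleton]
    filter_upwards [h1, h2] with r hr1 hr2 hr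
    exact hin r hr hr1 hr2
  rw [hae, setIntegral_indicator measurableSet_Ioo, inter_eq_self_of_subset_right Ioo_subset_Ioi_self,
    integral_const_mul, integral_complex_ofReal, ← integral_Ioc_eq_integral_Ioo,
    ← intervalIntegral.integral_of_le (norm_nonneg v), integral_pow]
  by_cases hv0 : v = 0
  · subst hv0; simp
  have hc : ((‖v‖ : ℝ) : ℂ) ^ 2 = v * conj v := by
    rw [Complex.mul_conj, Complex.normSq_eq_norm_sq]; push_cast; ring
  have hpow : ((‖v‖ : ℝ) : ℂ) ^ (2 * k + 1 + 1) = v ^ (k + 1) * conj v ^ (k + 1) := by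
    rw [show 2 * k + 1 + 1 = 2 * (k + 1) by ring, pow_mul, hc, mul_pow]
  have hvk : v ^ (k + 1) ≠ 0 := pow_ne_zero _ hv0
  have hk : ((k : ℂ) + 1) ≠ 0 := by exact_mod_cast Nat.succ_ne_zero k
  push_cast
  rw [zero_pow (by omega), sub_zero, hpow, show (2 * (k:ℂ) + 1 + 1) = 2 * ((k:ℂ) + 1) by ring]
  field_simp

end Pool.Agent.Helper39.Area
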