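import Pool.Agent.Helper39.Area.Kernel
set_option autoImplicit false
open Complex MeasureTheory Metric Set
open scoped Real ENNReal ComplexConjugate

/-! The logarithmic kernel: `∫_{|u| < M} (conj u)⁻¹ / (v - u) dA(u) = 2π (log |v| - log M)`. -/

namespace Pool.Agent.Helper39.Area

theorem angular_log {ρ : ℝ} (hρ : 0 < ρ) {v : ℂ} (hv : ‖v‖ ≠ ρ) :
    (∫ θ in Ioo (-π) π, (conj (Complex.polarCoord.symm (ρ, θ)))⁻¹ /
      (v - Complex.polarCoord.symm (ρ, θ))) =
      if ρ < ‖v‖ then 0 else - (2 * π) * ((ρ:ℂ) ^ 2)⁻¹ := by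
  have e1 : ∀ θ : ℝ, Complex.polarCoord.symm (ρ, θ) = circleMap 0 ρ θ := by
    intro θ
    rw [Complex.polarCoord_symm_apply, circleMap, zero_add, Complex.exp_mul_I]
    simp
  simp_rw [e1]
  rw [← integral_Ioc_eq_integral_Ioo, ← intervalIntegral.integral_of_le (by linarith [Real.pi_pos])]
  have hper : Function.Periodic (fun θ : ℝ => (conj (circleMap 0 ρ θ))⁻¹ / (v - circleMap 0 ρ θ))
      (2 * π) := by
    intro θ
    simp only [periodic_circleMap 0 ρ θ]
  have h2 := hper.intervalIntegral_add_eq (-π) 0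
  rw [show -π + 2 * π = π by ring, zero_add] at h2
  rw [h2]
  have e2 : (∫ θ in (0:ℝ)..2 * π, (conj (circleMap 0 ρ θ))⁻¹ / (v - circleMap 0 ρ θ)) =
      (∮ w in C(0, ρ), (((ρ:ℂ) ^ 2)⁻¹ * (-I)) * (v - w)⁻¹) := by
    rw [circleIntegral]
    apply intervalIntegral.integral_congr
    intro θ _
    simp only [deriv_circleMap, smul_eq_mul]
    have hne : circleMap 0 ρ θ ≠ 0 := circleMap_ne_center (c := 0) (θ := θ) hρ.ne'
    have hρ' : (ρ:ℂ) ≠ 0 := by exact_mod_cast hρ.ne'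
    have hc : (conj (circleMap 0 ρ θ))⁻¹ = ((ρ:ℂ) ^ 2)⁻¹ * circleMap 0 ρ θ := by
      have h3 : circleMap 0 ρ θ * conj (circleMap 0 ρ θ) = (ρ:ℂ) ^ 2 := by
        rw [Complex.mul_conj, Complex.normSq_eq_norm_sq]
        simp [abs_of_pos hρ]
      have h4 : conj (circleMap 0 ρ θ) ≠ 0 := by simpa using hne
      rw [inv_eq_iff_eq_inv, mul_inv, inv_inv, ← h3]
      field_simp
    rw [hc, div_eq_mul_inv]
    have hI : I * -I = 1 := by simp
    linear_combination (-(((ρ:ℂ) ^ 2)⁻¹ * circleMap 0 ρ θ * (v - circleMap 0 ρ θ)⁻¹)) * hI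
  rw [e2, circleIntegral.integral_const_mul]
  split_ifs with h
  · rw [circle_inv_out hρ h, mul_zero]
  · rw [circle_inv_in (lt_of_le_of_ne (not_lt.mp h) hv)]
    have hI : I * -I = 1 := by simp
    linear_combination (-(2 * π * ((ρ:ℂ) ^ 2)⁻¹)) * hI

theorem inv_mul_inv_le (u v : ℂ) (hv : v ≠ 0) :
    ‖u‖⁻¹ * ‖v - u‖⁻¹ ≤ ‖v‖⁻¹ * (‖u‖⁻¹ + ‖v - u‖⁻¹) := by
  by_cases hu : u = 0
  · subst hu; simp; positivity
  by_cases huv : v - u = 0
  · rw [huv]; simp
    positivity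
  have h1 : 0 < ‖u‖ := norm_pos_iff.mpr hu
  have h2 : 0 < ‖v - u‖ := norm_pos_iff.mpr huv
  have h3 : 0 < ‖v‖ := norm_pos_iff.mpr hv
  have h4 : ‖v‖ ≤ ‖u‖ + ‖v - u‖ := by
    calc ‖v‖ = ‖u + (v - u)‖ := by congr 1; ring
      _ ≤ _ := norm_add_le _ _
  rw [← sub_nonneg]
  have : ‖v‖⁻¹ * (‖u‖⁻¹ + ‖v - u‖⁻¹) - ‖u‖⁻¹ * ‖v - u‖⁻¹ =
      (‖u‖ + ‖v - u‖ - ‖v‖) / (‖v‖ * ‖u‖ * ‖v - u‖) := by
    field_simp
    ring
  rw [this]
  apply div_nonneg (by linarith) (by positivity)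

theorem measurable_logkernel (v : ℂ) : Measurable (fun u : ℂ => (conj u)⁻¹ / (v - u)) := by
  apply Measurable.div _ (by fun_prop)
  exact (Complex.continuous_conj.measurable).inv

theorem integrable_logkernel (M : ℝ) {v : ℂ} (hv : v ≠ 0) :
    IntegrableOn (fun u : ℂ => (conj u)⁻¹ / (v - u)) (ball (0:ℂ) M) := by
  have h0 := integrable_inv 0 M
  simp only [zero_sub, norm_neg] at h0
  have h := (h0.add (integrable_inv v M)).const_mul (‖v‖⁻¹)
  refine Integrable.mono' h (measurable_logkernel v).aestronglyMeasurable ?_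
  refine Filter.Eventually.of_forall ?_
  intro u
  rw [norm_div, norm_inv, RCLike.norm_conj, div_eq_mul_inv]
  exact inv_mul_inv_le u v hv

theorem logkernel (M : ℝ) {v : ℂ} (hv0 : v ≠ 0) (hv : ‖v‖ < M) :
    ∫ u in ball (0:ℂ) M, (conj u)⁻¹ / (v - u) = ((2 * π * (Real.log ‖v‖ - Real.log M) : ℝ) : ℂ) := by
  have hvpos : 0 < ‖v‖ := norm_pos_iff.mpr hv0
  have hM : 0 < M := hvpos.trans hv
  set f : ℂ → ℂ := (ball (0:ℂ) M).indicator (fun u => (conj u)⁻¹ / (v - u)) with hf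
  have hfi : Integrable f := by
    rw [hf, integrable_indicator_iff measurableSet_ball]
    exact integrable_logkernel M hv0
  have hfm : Measurable f := (measurable_logkernel v).indicator measurableSet_ball
  have hsm : Measurable (fun p : ℝ × ℝ => (Complex.polarCoord.symm p : ℂ)) := by
    simp only [Complex.polarCoord_symm_apply]
    fun_prop
  have hprod : IntegrableOn (fun p : ℝ × ℝ => p.1 • f (Complex.polarCoord.symm p))
      (Ioi (0:ℝ) ×ˢ Ioo (-π) π) := by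
    refine ⟨(measurable_fst.smul (hfm.comp hsm)).aestronglyMeasurable, ?_⟩
    rw [hasFiniteIntegral_iff_enorm]
    have h1 := Complex.lintegral_comp_polarCoord_symm (fun u => ‖f u‖ₑ)
    have h2 : (∫⁻ p in Ioi (0:ℝ) ×ˢ Ioo (-π) π, ‖p.1 • f (Complex.polarCoord.symm p)‖ₑ) =
        ∫⁻ p in polarCoord.target, ENNReal.ofReal p.1 • ‖f (Complex.polarCoord.symm p)‖ₑ := by
      apply setLIntegral_congr_fun (measurableSet_Ioi.prod measurableSet_Ioo)
      rintro ⟨r, θ⟩ ⟨hr, hθ⟩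
      simp only [mem_Ioi] at hr
      simp only [smul_eq_mul]
      rw [enorm_smul]
      congr 1
      rw [← ofReal_norm, Real.norm_of_nonneg hr.le]
    rw [h2, h1]
    exact hfi.2
  rw [← integral_indicator measurableSet_ball, ← hf, ← Complex.integral_comp_polarCoord_symm]
  rw [show polarCoord.target = Ioi (0:ℝ) ×ˢ Ioo (-π) π from rfl]
  rw [Measure.volume_eq_prod] at hprod ⊢
  rw [setIntegral_prod _ hprod]
  -- the inner integral
  have hin : ∀ r ∈ Ioi (0:ℝ), r ≠ ‖v‖ → r ≠ M →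
      (∫ θ in Ioo (-π) π, (r, θ).1 • f (Complex.polarCoord.symm (r, θ))) =
        (Ioo ‖v‖ M).indicator (fun r : ℝ => ((-(2 * π) * (r⁻¹) : ℝ) : ℂ)) r := by
    intro r hr hrv hrM'
    simp only [mem_Ioi] at hr
    by_cases hrM : r < M
    · have e : ∀ θ, (r, θ).1 • f (Complex.polarCoord.symm (r, θ)) =
          (r : ℂ) * ((conj (Complex.polarCoord.symm (r, θ)))⁻¹ / (v - Complex.polarCoord.symm (r, θ))) := by
        intro θ
        rw [hf, indicator_of_mem (by rw [mem_ball, dist_zero_right, Complex.norm_polarCoord_symm, abs_of_pos hr]; exact hrM)]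
        simp
      simp_rw [e]
      rw [integral_const_mul, angular_log hr (Ne.symm hrv)]
      have hr' : (r:ℂ) ≠ 0 := by exact_mod_cast hr.ne'
      by_cases h : r < ‖v‖
      · rw [if_pos h, indicator_of_notMem (fun h' => absurd h'.1 (not_lt.mpr h.le)), mul_zero]
      · rw [if_neg h, indicator_of_mem (show r ∈ Ioo ‖v‖ M from
          ⟨lt_of_le_of_ne (not_lt.mp h) (Ne.symm hrv), hrM⟩)]
        push_cast
        field_simp
    · have e : ∀ θ, (r, θ).1 • f (Complex.polarCoord.symm (r, θ)) = 0 := by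
        intro θ
        rw [hf, indicator_of_notMem (by rw [mem_ball, dist_zero_right, Complex.norm_polarCoord_symm, abs_of_pos hr]; exact hrM)]
        simp
      simp_rw [e]
      rw [indicator_of_notMem (fun h' => hrM h'.2)]
      simp
  have hae : (∫ r in Ioi (0:ℝ), ∫ θ in Ioo (-π) π, (r, θ).1 • f (Complex.polarCoord.symm (r, θ))) =
      ∫ r in Ioi (0:ℝ), (Ioo ‖v‖ M).indicator (fun r : ℝ => ((-(2 * π) * (r⁻¹) : ℝ) : ℂ)) r := by
    apply setIntegral_congr_ae measurableSet_Ioi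
    have h1 : ∀ᵐ r : ℝ, r ≠ ‖v‖ := by
      simp [ae_iff, measure_singleton]
    have h2 : ∀ᵐ r : ℝ, r ≠ M := by
      simp [ae_iff, measure_singleton]
    filter_upwards [h1, h2] with r hr1 hr2 hr
    exact hin r hr hr1 hr2
  have hsub : Ioo ‖v‖ M ⊆ Ioi (0:ℝ) := fun r hr => hvpos.trans hr.1
  rw [hae, setIntegral_indicator measurableSet_Ioo, inter_eq_self_of_subset_right hsub,
    integral_complex_ofReal, ← integral_Ioc_eq_integral_Ioo,
    ← intervalIntegral.integral_of_le hv.le, intervalIntegral.integral_const_mul,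
    integral_inv_of_pos hvpos hM, Real.log_div hM.ne' hvpos.ne']
  congr 1
  ring

end Pool.Agent.Helper39.Area
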