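import Pool.Agent.Helper39.Area.Kernel
set_option autoImplicit false
open Complex MeasureTheory Metric Set Polynomial
open scoped Real ENNReal ComplexConjugate

/-! Winding numbers for the exterior map in the coordinate `ζ = 1/z`. -/

namespace Pool.Agent.Helper39.Area

/-- data of a univalent function `φ ζ = ζ⁻¹ + β ζ` on the punctured disc -/
structure Ext (β : ℂ → ℂ) : Prop where
  diff : DifferentiableOn ℂ β (ball 0 1)
  inj : ∀ ζ ω : ℂ, ζ ∈ ball (0:ℂ) 1 → ω ∈ ball (0:ℂ) 1 → ζ ≠ 0 → ω ≠ 0 →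
    ζ⁻¹ + β ζ = ω⁻¹ + β ω → ζ = ω
  ne : ∀ ζ : ℂ, ζ ∈ ball (0:ℂ) 1 → 1 - ζ ^ 2 * deriv β ζ ≠ 0

noncomputable def phi (β : ℂ → ℂ) (ζ : ℂ) : ℂ := ζ⁻¹ + β ζ
noncomputable def dphi (β : ℂ → ℂ) (ζ : ℂ) : ℂ := -(ζ ^ 2)⁻¹ + deriv β ζ
noncomputable def qq (β : ℂ → ℂ) (a ζ : ℂ) : ℂ := 1 - a * ζ * dslope β a ζ

variable {β : ℂ → ℂ}

theorem hasDerivAt_phi (h : DifferentiableOn ℂ β (ball 0 1)) {ζ : ℂ} (hζ : ζ ∈ ball (0:ℂ) 1)
    (h0 : ζ ≠ 0) : HasDerivAt (phi β) (dphi β ζ) ζ := by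
  have h1 := (h.differentiableAt (isOpen_ball.mem_nhds hζ)).hasDerivAt
  exact (hasDerivAt_inv h0).add h1

theorem phi_sub (a ζ : ℂ) (ha : a ≠ 0) (hζ : ζ ≠ 0) :
    phi β ζ - phi β a = (ζ⁻¹ - a⁻¹) * qq β a ζ := by
  unfold phi qq
  by_cases h : ζ = a
  · subst h; simp
  · rw [dslope_of_ne _ h, slope_def_field]
    have h1 : ζ - a ≠ 0 := sub_ne_zero.mpr h
    field_simp
    ring

theorem qq_diff (h : DifferentiableOn ℂ β (ball 0 1)) {a : ℂ} (ha : a ∈ ball (0:ℂ) 1) :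
    DifferentiableOn ℂ (qq β a) (ball 0 1) := by
  have h1 : DifferentiableOn ℂ (dslope β a) (ball 0 1) :=
    (Complex.differentiableOn_dslope (isOpen_ball.mem_nhds ha)).mpr h
  unfold qq
  fun_prop

theorem qq_ne (h : Ext β) {a ζ : ℂ} (ha : a ∈ ball (0:ℂ) 1) (hζ : ζ ∈ ball (0:ℂ) 1) :
    qq β a ζ ≠ 0 := by
  by_cases ha0 : a = 0
  · subst ha0; simp [qq]
  by_cases hζ0 : ζ = 0
  · subst hζ0; simp [qq]
  by_cases hne : ζ = a
  · subst hne
    have := h.ne ζ hζ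
    unfold qq
    rw [dslope_same]
    intro h'
    apply this
    rw [← h']; ring
  · intro hq
    have h1 := phi_sub (β := β) a ζ ha0 hζ0
    rw [hq, mul_zero, sub_eq_zero] at h1
    exact hne (h.inj ζ a hζ ha hζ0 ha0 h1)

theorem mem_ball_of_sphere {ρ : ℝ} (hρ1 : ρ < 1) {ζ : ℂ} (hζ : ζ ∈ closedBall (0:ℂ) ρ) :
    ζ ∈ ball (0:ℂ) 1 := by
  rw [mem_closedBall, dist_zero_right] at hζ
  rw [mem_ball, dist_zero_right]
  linarith

theorem sphere_ne {ρ : ℝ} (hρ : 0 < ρ) {ζ : ℂ} (hζ : ζ ∈ sphere (0:ℂ) ρ) : ζ ≠ 0 := by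
  rintro rfl
  simp at hζ
  exact hρ.ne hζ

/-- integral of a logarithmic derivative of a zero free function -/
theorem circle_logDeriv {ρ : ℝ} (hρ : 0 < ρ) (hρ1 : ρ < 1) {s : ℂ → ℂ}
    (hs : DifferentiableOn ℂ s (ball 0 1)) (hs0 : ∀ ζ ∈ closedBall (0:ℂ) ρ, s ζ ≠ 0) :
    (∮ ζ in C(0, ρ), deriv s ζ / s ζ) = 0 := by
  have hd : DifferentiableOn ℂ (deriv s) (ball 0 1) := hs.deriv isOpen_ball
  apply Complex.circleIntegral_eq_zero_of_differentiable_on_off_countable hρ.le countable_empty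
  · apply ContinuousOn.div
    · exact hd.continuousOn.mono (fun ζ hζ => mem_ball_of_sphere hρ1 hζ)
    · exact hs.continuousOn.mono (fun ζ hζ => mem_ball_of_sphere hρ1 hζ)
    · exact hs0
  · intro ζ hζ
    have hζ' : ζ ∈ closedBall (0:ℂ) ρ := ball_subset_closedBall hζ.1
    have hζ1 := mem_ball_of_sphere hρ1 hζ'
    exact (hd.differentiableAt (isOpen_ball.mem_nhds hζ1)).div
      (hs.differentiableAt (isOpen_ball.mem_nhds hζ1)) (hs0 ζ hζ')

theorem cont_logDeriv {ρ : ℝ} (hρ1 : ρ < 1) {s : ℂ → ℂ}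
    (hs : DifferentiableOn ℂ s (ball 0 1)) (hs0 : ∀ ζ ∈ closedBall (0:ℂ) ρ, s ζ ≠ 0) :
    ContinuousOn (fun ζ => deriv s ζ / s ζ) (sphere 0 ρ) := by
  have hd : DifferentiableOn ℂ (deriv s) (ball 0 1) := hs.deriv isOpen_ball
  apply ContinuousOn.div
  · exact hd.continuousOn.mono (fun ζ hζ => mem_ball_of_sphere hρ1 (sphere_subset_closedBall hζ))
  · exact hs.continuousOn.mono (fun ζ hζ => mem_ball_of_sphere hρ1 (sphere_subset_closedBall hζ))
  · intro ζ hζ; exact hs0 ζ (sphere_subset_closedBall hζ)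

/-- the logarithmic derivative of `φ - φ a` -/
theorem dphi_div (h : Ext β) {a ζ : ℂ} (ha : a ∈ ball (0:ℂ) 1) (hζ : ζ ∈ ball (0:ℂ) 1)
    (ha0 : a ≠ 0) (hζ0 : ζ ≠ 0) (hne : ζ ≠ a) :
    dphi β ζ / (phi β ζ - phi β a) = deriv (qq β a) ζ / qq β a ζ + (ζ - a)⁻¹ - ζ⁻¹ := by
  have hq := qq_ne h ha hζ
  have h1 : HasDerivAt (phi β) (-(ζ ^ 2)⁻¹ * qq β a ζ + (ζ⁻¹ - a⁻¹) * deriv (qq β a) ζ) ζ := by
    have h2 : HasDerivAt (fun ω => phi β a + (ω⁻¹ - a⁻¹) * qq β a ω)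
        (-(ζ ^ 2)⁻¹ * qq β a ζ + (ζ⁻¹ - a⁻¹) * deriv (qq β a) ζ) ζ := by
      have h3 := ((qq_diff h.diff ha).differentiableAt (isOpen_ball.mem_nhds hζ)).hasDerivAt
      exact (((hasDerivAt_inv hζ0).sub_const _).mul h3).const_add _
    apply h2.congr_of_eventuallyEq
    filter_upwards [isOpen_ne.mem_nhds hζ0] with ω hω
    rw [← phi_sub a ω ha0 hω]; ring
  have h4 := h1.unique (hasDerivAt_phi h.diff hζ hζ0)
  rw [← h4, phi_sub a ζ ha0 hζ0]
  have h5 : ζ - a ≠ 0 := sub_ne_zero.mpr hne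
  have h6 : ζ⁻¹ - a⁻¹ ≠ 0 := by
    rw [sub_ne_zero]
    intro h'
    exact hne (inv_injective h')
  have h7 : a - ζ ≠ 0 := sub_ne_zero.mpr (Ne.symm hne)
  have h8 : ζ⁻¹ - a⁻¹ = (a - ζ) / (ζ * a) := by field_simp
  rw [h8]
  field_simp
  ring

theorem wind_in (h : Ext β) {ρ : ℝ} (hρ : 0 < ρ) (hρ1 : ρ < 1) {a : ℂ} (ha : a ∈ ball (0:ℂ) ρ)
    (ha0 : a ≠ 0) : (∮ ζ in C(0, ρ), dphi β ζ / (phi β ζ - phi β a)) = 0 := by
  have ha1 : a ∈ ball (0:ℂ) 1 := mem_ball_of_sphere hρ1 (ball_subset_closedBall ha)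
  have hq0 : ∀ ζ ∈ closedBall (0:ℂ) ρ, qq β a ζ ≠ 0 := fun ζ hζ =>
    qq_ne h ha1 (mem_ball_of_sphere hρ1 hζ)
  have h1 : (∮ ζ in C(0, ρ), dphi β ζ / (phi β ζ - phi β a)) =
      ∮ ζ in C(0, ρ), (deriv (qq β a) ζ / qq β a ζ + (ζ - a)⁻¹ - ζ⁻¹) := by
    apply circleIntegral.integral_congr hρ.le
    intro ζ hζ
    apply dphi_div h ha1 (mem_ball_of_sphere hρ1 (sphere_subset_closedBall hζ)) ha0
      (sphere_ne hρ hζ)
    rintro rfl
    simp at hζ ha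
    linarith
  have hc1 := (cont_logDeriv hρ1 (qq_diff h.diff ha1) hq0).circleIntegrable hρ.le
  have hc2 : CircleIntegrable (fun ζ : ℂ => (ζ - a)⁻¹) 0 ρ := by
    apply ContinuousOn.circleIntegrable hρ.le
    apply ContinuousOn.inv₀ (by fun_prop)
    intro ζ hζ h'
    rw [sub_eq_zero] at h'
    subst h'
    simp at hζ ha
    linarith
  have hc3 : CircleIntegrable (fun ζ : ℂ => ζ⁻¹) 0 ρ := by
    apply ContinuousOn.circleIntegrable hρ.le
    apply ContinuousOn.inv₀ (by fun_prop)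
    intro ζ hζ
    exact sphere_ne hρ hζ
  have hc12 : CircleIntegrable (fun ζ => deriv (qq β a) ζ / qq β a ζ + (ζ - a)⁻¹) 0 ρ :=
    hc1.add hc2
  rw [h1, circleIntegral.integral_sub hc12 hc3, circleIntegral.integral_add hc1 hc2,
    circle_logDeriv hρ hρ1 (qq_diff h.diff ha1) hq0, circleIntegral.integral_sub_inv_of_mem_ball ha]
  have h2 := circle_inv_zero hρ
  simp only [zero_add, pow_one] at h2
  rw [h2]; ring

theorem wind_out (h : DifferentiableOn ℂ β (ball 0 1)) {ρ : ℝ} (hρ : 0 < ρ) (hρ1 : ρ < 1) {u : ℂ}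
    (hu : ∀ ζ ∈ closedBall (0:ℂ) ρ, ζ ≠ 0 → phi β ζ ≠ u) :
    (∮ ζ in C(0, ρ), dphi β ζ / (phi β ζ - u)) = - (2 * π * I) := by
  set s : ℂ → ℂ := fun ζ => 1 + ζ * (β ζ - u) with hs
  have hsd : DifferentiableOn ℂ s (ball 0 1) := by
    rw [hs]; fun_prop
  have hsphi : ∀ ζ : ℂ, ζ ≠ 0 → phi β ζ - u = ζ⁻¹ * s ζ := by
    intro ζ hζ
    simp only [phi, hs]
    field_simp
    ring
  have hs0 : ∀ ζ ∈ closedBall (0:ℂ) ρ, s ζ ≠ 0 := by
    intro ζ hζ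
    by_cases h0 : ζ = 0
    · subst h0; simp [hs]
    · intro h'
      have h2 := hsphi ζ h0
      rw [h', mul_zero, sub_eq_zero] at h2
      exact hu ζ hζ h0 h2
  have h1 : (∮ ζ in C(0, ρ), dphi β ζ / (phi β ζ - u)) =
      ∮ ζ in C(0, ρ), (deriv s ζ / s ζ - ζ⁻¹) := by
    apply circleIntegral.integral_congr hρ.le
    intro ζ hζ
    have hζ0 := sphere_ne hρ hζ
    have hζ1 := mem_ball_of_sphere hρ1 (sphere_subset_closedBall hζ)
    have hsne := hs0 ζ (sphere_subset_closedBall hζ)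
    have h3 : HasDerivAt (phi β) (-(ζ ^ 2)⁻¹ * s ζ + ζ⁻¹ * deriv s ζ) ζ := by
      have h2 : HasDerivAt (fun ω => u + ω⁻¹ * s ω) (-(ζ ^ 2)⁻¹ * s ζ + ζ⁻¹ * deriv s ζ) ζ := by
        have h3 := (hsd.differentiableAt (isOpen_ball.mem_nhds hζ1)).hasDerivAt
        exact ((hasDerivAt_inv hζ0).mul h3).const_add _
      apply h2.congr_of_eventuallyEq
      filter_upwards [isOpen_ne.mem_nhds hζ0] with ω hω
      rw [← hsphi ω hω]; ring
    have h4 := h3.unique (hasDerivAt_phi h hζ1 hζ0)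
    simp only
    rw [← h4, hsphi ζ hζ0]
    field_simp
    ring
  have hc1 := (cont_logDeriv hρ1 hsd hs0).circleIntegrable hρ.le
  have hc3 : CircleIntegrable (fun ζ : ℂ => ζ⁻¹) 0 ρ := by
    apply ContinuousOn.circleIntegrable hρ.le
    apply ContinuousOn.inv₀ (by fun_prop)
    intro ζ hζ
    exact sphere_ne hρ hζ
  rw [h1, circleIntegral.integral_sub hc1 hc3, circle_logDeriv hρ hρ1 hsd hs0]
  have h2 := circle_inv_zero hρ
  simp only [zero_add, pow_one] at h2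
  rw [h2]; ring

theorem exact (h : DifferentiableOn ℂ β (ball 0 1)) {ρ : ℝ} (hρ : 0 < ρ) (hρ1 : ρ < 1)
    (Q : ℂ[X]) : (∮ ζ in C(0, ρ), Q.eval (phi β ζ) * dphi β ζ) = 0 := by
  have hcphi : ContinuousOn (phi β) (sphere 0 ρ) := fun ζ hζ =>
    (hasDerivAt_phi h (mem_ball_of_sphere hρ1 (sphere_subset_closedBall hζ))
      (sphere_ne hρ hζ)).continuousAt.continuousWithinAt
  have hcd : ContinuousOn (dphi β) (sphere 0 ρ) := by
    apply ContinuousOn.add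
    · apply ContinuousOn.neg
      apply ContinuousOn.inv₀ (by fun_prop)
      intro ζ hζ
      exact pow_ne_zero _ (sphere_ne hρ hζ)
    · exact (h.deriv isOpen_ball).continuousOn.mono
        (fun ζ hζ => mem_ball_of_sphere hρ1 (sphere_subset_closedBall hζ))
  have hci : ∀ Q : ℂ[X], CircleIntegrable (fun ζ => Q.eval (phi β ζ) * dphi β ζ) 0 ρ := by
    intro Q
    apply ContinuousOn.circleIntegrable hρ.le
    exact (Q.continuous.comp_continuousOn hcphi).mul hcd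
  induction Q using Polynomial.induction_on' with
  | add p q hp hq =>
    have : (∮ ζ in C(0, ρ), (p + q).eval (phi β ζ) * dphi β ζ) =
        ∮ ζ in C(0, ρ), (p.eval (phi β ζ) * dphi β ζ + q.eval (phi β ζ) * dphi β ζ) := by
      congr 1; funext ζ; rw [eval_add, add_mul]
    rw [this, circleIntegral.integral_add (hci p) (hci q), hp, hq, add_zero]
  | monomial n a =>
    apply circleIntegral.integral_eq_zero_of_hasDerivWithinAt hρ.le
      (f := fun ζ => a * (phi β ζ ^ (n + 1) / (n + 1)))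
    intro ζ hζ
    have h1 := hasDerivAt_phi h (mem_ball_of_sphere hρ1 (sphere_subset_closedBall hζ))
      (sphere_ne hρ hζ)
    have hn : ((n : ℂ) + 1) ≠ 0 := by exact_mod_cast Nat.succ_ne_zero n
    have h2 := ((h1.pow (n + 1)).div_const ((n:ℂ) + 1)).const_mul a
    have h3 : (monomial n a).eval (phi β ζ) * dphi β ζ =
        a * (((n + 1 : ℕ) : ℂ) * phi β ζ ^ (n + 1 - 1) * dphi β ζ / ((n:ℂ) + 1)) := by
      rw [eval_monomial, Nat.add_sub_cancel]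
      push_cast
      field_simp
    rw [h3]
    exact h2.hasDerivWithinAt

end Pool.Agent.Helper39.Area
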